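import Mathlib

/-!
# Algebra: `p`-adic characters of the translation module

`B` is a finitely generated free abelian group with an action of the finite `p`-group `G`,
`w : B →₀ ℤ` and `∑ i, (x ↦ A i x + b i)_* w = |G| δ_0` for `n` affine maps.
-/

set_option autoImplicit false
set_option linter.unusedSectionVars false
set_option linter.style.haveILetI false

open Finset

noncomputable section

namespace Pool.Agent.helper11.Disk

section functional

variable {B : Type*} [AddCommGroup B] {R : Type*} [CommRing R]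

/-- the functional `φ ↦ ∑ w x φ x` -/
def LL (w : B →₀ ℤ) (φ : B → R) : R := w.sum fun x a => (a : R) * φ x

theorem LL_eq (w : B →₀ ℤ) (φ : B → R) : LL w φ = ∑ x ∈ w.support, ((w x : ℤ) : R) * φ x := rfl

theorem LL_mul (w : B →₀ ℤ) (φ : B → R) (c : R) : LL w (fun x => c * φ x) = c * LL w φ := by
  rw [LL_eq, LL_eq, mul_sum]
  exact sum_congr rfl fun x _ => by ring

theorem LL_add (w : B →₀ ℤ) (φ ψ : B → R) : LL w (fun x => φ x + ψ x) = LL w φ + LL w ψ := by
  rw [LL_eq, LL_eq, LL_eq, ← sum_add_distrib]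
  exact sum_congr rfl fun x _ => by ring

theorem LL_map (w : B →₀ ℤ) (f : B → B) (φ : B → R) :
    LL (Finsupp.mapDomain f w) φ = LL w (fun x => φ (f x)) := by
  unfold LL
  rw [Finsupp.sum_mapDomain_index]
  · intro x; simp
  · intro x a b; push_cast; ring

theorem LL_sum {ι : Type*} (s : Finset ι) (v : ι → B →₀ ℤ) (φ : B → R) :
    LL (∑ i ∈ s, v i) φ = ∑ i ∈ s, LL (v i) φ := by
  classical
  unfold LL
  rw [← Finsupp.sum_finsetSum_index]
  · intro x; simp
  · intro x a b; push_cast; ring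

theorem LL_single (x : B) (a : ℤ) (φ : B → R) : LL (Finsupp.single x a) φ = (a : R) * φ x := by
  unfold LL
  rw [Finsupp.sum_single_index]
  simp

/-- the basic equation, tested with a function -/
theorem LL_E {n : ℕ} {act : Fin n → B → B} {w : B →₀ ℤ} {q : ℕ}
    (hE : ∑ i, Finsupp.mapDomain (act i) w = Finsupp.single 0 (q : ℤ)) (φ : B → R) :
    ∑ i, LL w (fun x => φ (act i x)) = (q : R) * φ 0 := by
  have h1 := congrArg (fun v => LL v φ) hE
  simp only [LL_sum, LL_single, LL_map] at h1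
  rw [h1]
  push_cast
  ring

theorem LL_one_E {n : ℕ} {act : Fin n → B → B} {w : B →₀ ℤ} {q : ℕ}
    (hE : ∑ i, Finsupp.mapDomain (act i) w = Finsupp.single 0 (q : ℤ)) :
    (n : ℤ) * LL w (fun _ => (1 : ℤ)) = q := by
  have h1 := LL_E hE (fun _ => (1 : ℤ))
  simpa using h1

end functional

/-! ## The unit lemma in the group ring of `Z/p` -/

theorem pow_sum {R : Type*} [CommRing R] {p : ℕ} (hp : p.Prime) {ι : Type*} (s : Finset ι) (f : ι → R) :
    ∃ z, (∑ x ∈ s, f x) ^ p = ∑ x ∈ s, f x ^ p + p * z := by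
  classical
  induction s using Finset.induction_on with
  | empty => exact ⟨0, by simp [hp.ne_zero]⟩
  | insert a s ha ih =>
    obtain ⟨z, hz⟩ := ih
    obtain ⟨r, hr⟩ := exists_add_pow_prime_eq hp (f a) (∑ x ∈ s, f x)
    refine ⟨z + f a * (∑ x ∈ s, f x) * r, ?_⟩
    rw [sum_insert ha, sum_insert ha, hr, hz]
    ring

theorem int_pow {p : ℕ} (hp : p.Prime) (a : ℤ) : ∃ c : ℤ, a ^ p = a + p * c := by
  haveI := Fact.mk hp
  have h1 : ((a ^ p - a : ℤ) : ZMod p) = 0 := by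
    push_cast
    rw [ZMod.pow_card, sub_self]
  rw [ZMod.intCast_zmod_eq_zero_iff_dvd] at h1
  obtain ⟨c, hc⟩ := h1
  exact ⟨c, by linarith⟩

abbrev GR (p : ℕ) := AddMonoidAlgebra ℤ (ZMod p)

theorem single_pow {p : ℕ} (v : ZMod p) : (AddMonoidAlgebra.single v (1 : ℤ) : GR p) ^ p = 1 := by
  rw [AddMonoidAlgebra.single_pow, one_pow]
  have : p • v = 0 := by
    rw [nsmul_eq_mul, CharP.cast_eq_zero, zero_mul]
  rw [this]
  rfl

theorem frob {B : Type*} [AddCommGroup B] {p : ℕ} (hp : p.Prime) (w : B →₀ ℤ) (χ : B → ZMod p) :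
    ∃ z : GR p, (LL w fun x => (AddMonoidAlgebra.single (χ x) (1 : ℤ) : GR p)) ^ p =
      ((LL w fun _ => (1 : ℤ) : ℤ) : GR p) + p * z := by
  obtain ⟨z, hz⟩ := pow_sum hp w.support (fun x => ((w x : ℤ) : GR p) *
    (AddMonoidAlgebra.single (χ x) (1 : ℤ) : GR p))
  have hc : ∀ x : B, ∃ c : ℤ, (w x) ^ p = w x + p * c := fun x => int_pow hp (w x)
  choose c hc using hc
  refine ⟨(∑ x ∈ w.support, ((c x : ℤ) : GR p)) + z, ?_⟩
  rw [LL_eq, hz, LL_eq]
  have h1 : ∀ x ∈ w.support, (((w x : ℤ) : GR p) * (AddMonoidAlgebra.single (χ x) (1 : ℤ) : GR p)) ^ p =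
      ((w x : ℤ) : GR p) + p * ((c x : ℤ) : GR p) := by
    intro x _
    rw [mul_pow, single_pow, mul_one]
    have := congrArg (fun a : ℤ => (a : GR p)) (hc x)
    push_cast at this
    exact this
  rw [sum_congr rfl h1, sum_add_distrib, ← mul_sum]
  simp only [mul_one, Int.cast_sum, Int.cast_id]
  ring

/-- if `T y = p^k` in `ℤ[Z/p]` and `y` has augmentation `1` then `p^k` divides `T`. -/
theorem unit_lemma {p k : ℕ} (hp : p.Prime) {T y z : GR p} (hT : T * y = (p : GR p) ^ k)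
    (hy : y ^ p = 1 + p * z) : ∃ z', T = (p : GR p) ^ k * z' := by
  have h1 : (p : GR p) ∣ y ^ p - 1 := ⟨z, by rw [hy]; ring⟩
  have h2 := dvd_sub_pow_of_dvd_sub h1 k
  rw [one_pow] at h2
  have h3 : (p : GR p) ^ k ∣ (y ^ p) ^ p ^ k - 1 := (pow_dvd_pow _ (Nat.le_succ k)).trans h2
  have h4 : (p : GR p) ^ k ∣ T * ((y ^ p) ^ p ^ k) := by
    have hpos : 0 < p * p ^ k := Nat.mul_pos hp.pos (pow_pos hp.pos k)
    obtain ⟨m, hm⟩ : ∃ m, p * p ^ k = m + 1 := ⟨p * p ^ k - 1, by omega⟩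
    rw [← pow_mul, hm, pow_succ', ← mul_assoc, hT]
    exact Dvd.intro _ rfl
  have h5 : T = T * ((y ^ p) ^ p ^ k) - T * ((y ^ p) ^ p ^ k - 1) := by ring
  have h6 : (p : GR p) ^ k ∣ T := by
    rw [h5]
    exact dvd_sub h4 (h3.mul_left T)
  exact h6

end Pool.Agent.helper11.Disk
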