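import Pool.Agent.helper11.Disk.Circle
import Pool.Agent.helper15.Hexagon.Defs

/-!
# Curves of bounded variation have finite length
-/

set_option autoImplicit false

open Set Filter Topology MeasureTheory Metric
open scoped ENNReal NNReal
open Pool.Agent.helper15.Hexagon

noncomputable section

namespace Pool.Agent.helper11.Disk

theorem arc_len {γ : ℝ → ℂ} (h : BoundedVariationOn γ (Icc 0 1)) : μH[1] (γ '' Icc (0 : ℝ) 1) ≠ ∞ := by
  set I : Set ℝ := Icc (0 : ℝ) 1 with hI
  have hfin : ∀ s : Set ℝ, eVariationOn γ (I ∩ s) ≠ ∞ := fun s =>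
    ne_top_of_le_ne_top h (eVariationOn.mono γ inter_subset_left)
  set v : ℝ → ℝ := fun x => (eVariationOn γ (I ∩ Icc 0 x)).toReal with hv
  have hle : ∀ x ∈ I, ∀ y ∈ I, x ≤ y → dist (γ x) (γ y) ≤ v y - v x := by
    intro x hx y hy hxy
    have h1 := eVariationOn.Icc_add_Icc γ hx.1 hxy hx
    have h2 : edist (γ x) (γ y) ≤ eVariationOn γ (I ∩ Icc x y) :=
      eVariationOn.edist_le γ ⟨hx, le_refl _, hxy⟩ ⟨hy, hxy, le_refl _⟩
    have h3 : v y = v x + (eVariationOn γ (I ∩ Icc x y)).toReal := by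
      simp only [hv]
      rw [← h1, ENNReal.toReal_add (hfin _) (hfin _)]
    rw [h3, add_sub_cancel_left]
    rw [edist_dist] at h2
    exact (ENNReal.ofReal_le_iff_le_toReal (hfin _)).mp h2
  have hmono : ∀ x ∈ I, ∀ y ∈ I, x ≤ y → v x ≤ v y := fun x hx y hy hxy => by
    have := hle x hx y hy hxy
    linarith [dist_nonneg (x := γ x) (y := γ y)]
  have habs : ∀ x ∈ I, ∀ y ∈ I, dist (γ x) (γ y) ≤ dist (v x) (v y) := by
    intro x hx y hy
    rcases le_total x y with hxy | hxy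
    · rw [dist_comm (v x), Real.dist_eq]
      exact (hle x hx y hy hxy).trans (le_abs_self _)
    · rw [dist_comm (γ x), Real.dist_eq]
      exact (hle y hy x hx hxy).trans (le_abs_self _)
  set φ : ℝ → ℂ := fun s => γ (Function.invFunOn v I s) with hφ
  have hinv : ∀ s ∈ v '' I, Function.invFunOn v I s ∈ I ∧ v (Function.invFunOn v I s) = s := by
    intro s hs
    exact ⟨Function.invFunOn_mem hs, Function.invFunOn_eq hs⟩
  have hlip : LipschitzOnWith 1 φ (v '' I) := by
    apply LipschitzOnWith.of_dist_le_mul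
    intro s hs t ht
    obtain ⟨h1, h2⟩ := hinv s hs
    obtain ⟨h3, h4⟩ := hinv t ht
    have := habs _ h1 _ h3
    rw [h2, h4] at this
    simpa using this
  have himg : γ '' I ⊆ φ '' (v '' I) := by
    rintro _ ⟨x, hx, rfl⟩
    refine ⟨v x, ⟨x, hx, rfl⟩, ?_⟩
    obtain ⟨h1, h2⟩ := hinv (v x) ⟨x, hx, rfl⟩
    have := habs _ h1 _ hx
    rw [h2, dist_self] at this
    exact dist_le_zero.mp this
  have h1 := hlip.hausdorffMeasure_image_le (d := 1) zero_le_one
  rw [hausdorffMeasure_real] at h1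
  have h2 : v '' I ⊆ Icc (v 0) (v 1) := by
    rintro _ ⟨x, hx, rfl⟩
    exact ⟨hmono 0 ⟨le_refl _, zero_le_one⟩ x hx hx.1, hmono x hx 1 ⟨zero_le_one, le_refl _⟩ hx.2⟩
  have h3 : volume (v '' I) ≠ ∞ :=
    ne_top_of_le_ne_top (by rw [Real.volume_Icc]; exact ENNReal.ofReal_ne_top) (measure_mono h2)
  refine ne_top_of_le_ne_top ?_ ((measure_mono himg).trans h1)
  simpa using h3

theorem boundary_len {P : Set ℂ} (h : RectifiableBoundary P) : μH[1] (frontier P) ≠ ∞ := by
  obtain ⟨N, γ, h1, h2⟩ := h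
  rw [h2]
  refine ne_top_of_le_ne_top ?_ (measure_iUnion_fintype_le _ _)
  exact ENNReal.sum_ne_top.mpr fun k _ => arc_len (h1 k).2.2

end Pool.Agent.helper11.Disk
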