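import Pool.Agent.helper11.Disk.Ray

/-!
# Unit circles and a countable group of isometries
-/

set_option autoImplicit false

open Set Filter Topology MeasureTheory Metric
open scoped ENNReal NNReal

noncomputable section

namespace Pool.Agent.helper11.Disk

theorem circle_inter {c d : ℂ} (h : c ≠ d) : (sphere c 1 ∩ sphere d 1 : Set ℂ).Finite := by
  set e : ℂ := d - c with he
  have he0 : e ≠ 0 := sub_ne_zero.mpr h.symm
  set p : Polynomial ℂ := Polynomial.C ((starRingEnd ℂ) e) * Polynomial.X ^ 2 +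
    Polynomial.C (-(e * (starRingEnd ℂ) e)) * Polynomial.X + Polynomial.C e with hp
  have hp0 : p ≠ 0 := by
    intro h0
    have h1 := congrArg (fun q : Polynomial ℂ => q.eval 0) h0
    simp [hp] at h1
    exact he0 h1
  have hfin := Polynomial.finite_setOfPred_isRoot hp0
  refine (hfin.image (fun y => y + c)).subset ?_
  rintro x ⟨hx1, hx2⟩
  rw [mem_sphere, dist_eq_norm] at hx1 hx2
  refine ⟨x - c, ?_, by simp⟩
  show p.IsRoot (x - c)
  have h1 : (x - c) * (starRingEnd ℂ) (x - c) = 1 := by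
    rw [Complex.mul_conj, Complex.normSq_eq_norm_sq, hx1]; simp
  have h2 : (x - c - e) * (starRingEnd ℂ) (x - c - e) = 1 := by
    have : x - c - e = x - d := by rw [he]; ring
    rw [this, Complex.mul_conj, Complex.normSq_eq_norm_sq, hx2]; simp
  rw [map_sub] at h2
  rw [Polynomial.IsRoot.def, hp]
  simp only [Polynomial.eval_add, Polynomial.eval_mul, Polynomial.eval_C, Polynomial.eval_pow,
    Polynomial.eval_X]
  linear_combination (-(x - c)) * h2 + ((x - c) - e) * h1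

theorem circle_inter_zero {c d : ℂ} (h : c ≠ d) : μH[1] (sphere c 1 ∩ sphere d 1 : Set ℂ) = 0 := by
  have : NullSingletonClass (μH[1] : Measure ℂ) := Measure.nullSingletonClass_hausdorff ℂ one_pos
  exact (circle_inter h).measure_zero _

theorem sum_circles {ι : Type*} [Countable ι] {c : ι → ℂ} (hc : Function.Injective c) {S : Set ℂ}
    (hS : MeasurableSet S) : ∑' i, μH[1] (S ∩ sphere (c i) 1) ≤ μH[1] S := by
  rw [← measure_iUnion₀]
  · exact measure_mono (iUnion_subset fun i => inter_subset_left)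
  · intro i j hij
    refine measure_mono_null ?_ (circle_inter_zero (hc.ne hij))
    rintro x ⟨⟨_, h1⟩, ⟨_, h2⟩⟩
    exact ⟨h1, h2⟩
  · intro i
    exact (hS.inter isClosed_sphere.measurableSet).nullMeasurableSet

/-- the group of the isometries of the plane. -/
abbrev Iso := ℂ ≃ᵃⁱ[ℝ] ℂ

theorem vol_circle (γ : Iso) (S : Set ℂ) :
    volume {τ : ℝ | τ ∈ Icc (0 : ℝ) 1 ∧ γ (uu τ) ∈ S} ≤ 64 * μH[1] (S ∩ sphere (γ 0) 1) := by
  have h1 : {τ : ℝ | τ ∈ Icc (0 : ℝ) 1 ∧ γ (uu τ) ∈ S} ⊆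
      sl '' (γ.toIsometryEquiv ⁻¹' (S ∩ sphere (γ 0) 1) ∩ Reg) := by
    rintro τ ⟨hτ, hS⟩
    have h2 := sl_ray τ 1 one_ne_zero
    have h3 := ray_Reg hτ (r := 1) (by norm_num) (by norm_num)
    rw [Complex.ofReal_one, one_mul] at h2 h3
    refine ⟨uu τ, ⟨⟨hS, ?_⟩, h3⟩, h2⟩
    show dist (γ (uu τ)) (γ 0) = 1
    rw [γ.isometry.dist_eq, dist_zero_right, norm_uu]
  refine (measure_mono h1).trans ((vol_image inter_subset_right).trans ?_)
  refine mul_le_mul_right ((measure_mono inter_subset_left).trans ?_) _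
  rw [IsometryEquiv.hausdorffMeasure_preimage]

theorem ae_generic (Γ : Subgroup Iso) [Countable Γ] :
    ∀ᵐ τ : ℝ, τ ∈ Icc (0 : ℝ) 1 → ∀ γ : Γ, (γ : Iso) 0 ≠ 0 → ‖(γ : Iso) (uu τ)‖ ≠ 1 := by
  have h1 : ∀ γ : Γ, ∀ᵐ τ : ℝ, (γ : Iso) 0 ≠ 0 → τ ∈ Icc (0 : ℝ) 1 → ‖(γ : Iso) (uu τ)‖ ≠ 1 := by
    intro γ
    by_cases h : (γ : Iso) 0 = 0
    · exact Eventually.of_forall fun τ h' => absurd h h'
    have h2 : volume {τ : ℝ | τ ∈ Icc (0 : ℝ) 1 ∧ (γ : Iso) (uu τ) ∈ sphere (0 : ℂ) 1} = 0 := by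
      refine le_antisymm ((vol_circle γ _).trans ?_) bot_le
      rw [circle_inter_zero (Ne.symm h), mul_zero]
    rw [ae_iff]
    refine measure_mono_null ?_ h2
    intro τ hτ
    simp only [Classical.not_imp, not_not, Set.mem_ofPred_eq] at hτ
    exact ⟨hτ.2.1, by rw [mem_sphere_zero_iff_norm]; exact hτ.2.2⟩
  filter_upwards [ae_all_iff.mpr h1] with τ hτ hI γ hγ
  exact hτ γ hγ hI

theorem ae_fin (Γ : Subgroup Iso) [Countable Γ] (hK : {γ : Γ | (γ : Iso) 0 = 0}.Finite) {S : Set ℂ}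
    (hS : MeasurableSet S) (hfin : μH[1] S ≠ ∞) :
    ∀ᵐ τ : ℝ, τ ∈ Icc (0 : ℝ) 1 → {γ : Γ | (γ : Iso) (uu τ) ∈ S}.Finite := by
  classical
  let O : Set ℂ := range (fun γ : Γ => (γ : Iso) 0)
  have hO : Countable O := (countable_range _).to_subtype
  have hch : ∀ c : O, ∃ γ : Γ, (γ : Iso) 0 = c := fun c => c.2
  choose gc hgc using hch
  let E : O → Set ℝ := fun c => {τ | τ ∈ Icc (0 : ℝ) 1 ∧ ∃ γ : Γ, (γ : Iso) 0 = c ∧ (γ : Iso) (uu τ) ∈ S}
  -- elements with the same centre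
  have hfib : ∀ (c : O) (γ : Γ), (γ : Iso) 0 = c → ∃ κ ∈ hK.toFinset, γ = gc c * κ := by
    intro c γ hγ
    refine ⟨(gc c)⁻¹ * γ, ?_, by group⟩
    rw [Set.Finite.mem_toFinset]
    show ((((gc c)⁻¹ * γ : Γ) : Iso)) 0 = 0
    rw [Subgroup.coe_mul, Subgroup.coe_inv, AffineIsometryEquiv.coe_mul, Function.comp, hγ,
      ← hgc c, AffineIsometryEquiv.coe_inv, AffineIsometryEquiv.symm_apply_apply]
  have hE : ∀ c : O, volume (E c) ≤ (hK.toFinset.card * 64 : ℝ≥0∞) * μH[1] (S ∩ sphere (c : ℂ) 1) := by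
    intro c
    have h1 : E c ⊆ ⋃ κ ∈ hK.toFinset, {τ : ℝ | τ ∈ Icc (0 : ℝ) 1 ∧ ((gc c * κ : Γ) : Iso) (uu τ) ∈ S} := by
      rintro τ ⟨hτ, γ, hγ, hγS⟩
      obtain ⟨κ, hκ, rfl⟩ := hfib c γ hγ
      rw [mem_iUnion₂]
      exact ⟨κ, hκ, hτ, hγS⟩
    refine (measure_mono h1).trans ((measure_biUnion_finset_le _ _).trans ?_)
    have h2 : ∀ κ ∈ hK.toFinset, volume {τ : ℝ | τ ∈ Icc (0 : ℝ) 1 ∧ ((gc c * κ : Γ) : Iso) (uu τ) ∈ S} ≤
        64 * μH[1] (S ∩ sphere (c : ℂ) 1) := by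
      intro κ hκ
      have h3 := vol_circle ((gc c * κ : Γ) : Iso) S
      have h4 : ((gc c * κ : Γ) : Iso) 0 = c := by
        rw [Set.Finite.mem_toFinset] at hκ
        have hκ' : (κ : Iso) 0 = 0 := hκ
        rw [Subgroup.coe_mul, AffineIsometryEquiv.coe_mul, Function.comp, hκ', hgc c]
      rwa [h4] at h3
    refine (Finset.sum_le_sum h2).trans ?_
    rw [Finset.sum_const, nsmul_eq_mul, mul_assoc]
  have hsum : (∑' c, volume (E c)) ≠ ∞ := by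
    have h1 : (∑' c : O, (hK.toFinset.card * 64 : ℝ≥0∞) * μH[1] (S ∩ sphere (c : ℂ) 1)) ≤
        (hK.toFinset.card * 64 : ℝ≥0∞) * μH[1] S := by
      rw [ENNReal.tsum_mul_left]
      exact mul_le_mul_right (sum_circles Subtype.val_injective hS) _
    have h2 : (hK.toFinset.card * 64 : ℝ≥0∞) * μH[1] S ≠ ∞ :=
      ENNReal.mul_ne_top (ENNReal.mul_ne_top (ENNReal.natCast_ne_top _) (by simp)) hfin
    exact ne_top_of_le_ne_top h2 ((ENNReal.tsum_le_tsum hE).trans h1)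
  filter_upwards [ae_finite_setOfPred_mem hsum] with τ hτ hI
  have h1 : {γ : Γ | (γ : Iso) (uu τ) ∈ S} ⊆
      ⋃ c ∈ {c : O | τ ∈ E c}, (fun κ => gc c * κ) '' (hK.toFinset : Set Γ) := by
    intro γ hγ
    rw [mem_iUnion₂]
    have hc : ((⟨(γ : Iso) 0, ⟨γ, rfl⟩⟩ : O) : ℂ) = (γ : Iso) 0 := rfl
    refine ⟨⟨(γ : Iso) 0, ⟨γ, rfl⟩⟩, ⟨hI, γ, rfl, hγ⟩, ?_⟩
    obtain ⟨κ, hκ, he⟩ := hfib ⟨(γ : Iso) 0, ⟨γ, rfl⟩⟩ γ rfl
    exact ⟨κ, hκ, he.symm⟩
  exact (hτ.biUnion fun c _ => (Finset.finite_toSet _).image _).subset h1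

end Pool.Agent.helper11.Disk
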