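import Mathlib

/-!
# Convolution equations on cyclic groups of prime power order
-/

set_option autoImplicit false
set_option linter.unusedSectionVars false
set_option linter.style.haveILetI false
set_option linter.unusedVariables false

open Finset Polynomial

noncomputable section

namespace Pool.Agent.helper11.Disk

/-- sums over a cyclic group as sums over exponents. -/
theorem sum_cyclic {G : Type} [CommGroup G] [Fintype G] {g : G} (hg : ∀ x, x ∈ Subgroup.zpowers g) {N : ℕ}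
    (hN : Fintype.card G = N) {M : Type} [AddCommMonoid M] (F : G → M) :
    ∑ y, F y = ∑ a ∈ range N, F (g ^ a) := by
  classical
  have ho : orderOf g = N := by
    rw [← hN, orderOf_eq_card_of_forall_mem_zpowers hg, Nat.card_eq_fintype_card]
  have h1 : (range N).image (fun a => g ^ a) = univ := by
    apply Finset.eq_univ_of_card
    rw [Finset.card_image_of_injOn, card_range, hN]
    intro a ha b hb hab
    rw [coe_range, ← ho] at ha hb
    exact pow_injOn_Iio_orderOf ha hb hab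
  rw [← h1, Finset.sum_image]
  intro a ha b hb hab
  rw [mem_coe, mem_range, ← ho] at ha hb
  exact pow_injOn_Iio_orderOf ha hb hab

/-- an integral relation between the `p^(k+1)`-th roots of unity is invariant under the subgroup of order `p`. -/
theorem inv_of_sum_zero {p : ℕ} (hp : p.Prime) {k : ℕ} {G : Type} [CommGroup G] [Fintype G] {g : G}
    (hg : ∀ x, x ∈ Subgroup.zpowers g) (hN : Fintype.card G = p ^ (k + 1)) {φ : G →* ℂ}
    (hφ : IsPrimitiveRoot (φ g) (p ^ (k + 1))) (F : G → ℤ) (h0 : ∑ y, (F y : ℂ) * φ y = 0) (y : G) :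
    F (g ^ (p ^ k) * y) = F y := by
  classical
  set ζ := φ g with hζ
  have hNpos : 0 < p ^ (k + 1) := pow_pos hp.pos _
  set f : ℤ[X] := ∑ a ∈ range (p ^ (k + 1)), C (F (g ^ a)) * X ^ a with hf
  have hcoef : ∀ m, m < p ^ (k + 1) → f.coeff m = F (g ^ m) := by
    intro m hm
    rw [hf, finsetSum_coeff]
    simp only [coeff_C_mul, coeff_X_pow]
    rw [Finset.sum_eq_single m]
    · simp
    · intro b _ hb
      rw [if_neg (Ne.symm hb), mul_zero]
    · intro h
      exact absurd (mem_range.mpr hm) h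
  have hdeg : f.degree < (p ^ (k + 1) : ℕ) := by
    rw [hf]
    refine lt_of_le_of_lt (degree_sum_le _ _) ?_
    rw [Finset.sup_lt_iff (by exact WithBot.bot_lt_coe _)]
    intro a ha
    refine lt_of_le_of_lt (degree_C_mul_X_pow_le _ _) ?_
    exact_mod_cast mem_range.mp ha
  have heval : aeval ζ f = 0 := by
    rw [hf, map_sum]
    rw [sum_cyclic hg hN] at h0
    rw [← h0]
    apply Finset.sum_congr rfl
    intro a _
    rw [map_mul, map_pow, aeval_C, aeval_X, map_pow]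
    rfl
  have hdvd : cyclotomic (p ^ (k + 1)) ℤ ∣ f := by
    rw [cyclotomic_eq_minpoly hφ hNpos]
    exact minpoly.isIntegrallyClosed_dvd (hφ.isIntegral hNpos) heval
  obtain ⟨h, hh⟩ := hdvd
  have hhcoef : ∀ b, p ^ k ≤ b → h.coeff b = 0 := by
    intro b hb
    by_contra hne
    have hh0 : h ≠ 0 := by
      intro h1
      rw [h1, coeff_zero] at hne
      exact hne rfl
    have h2 : f.degree = (cyclotomic (p ^ (k + 1)) ℤ).degree + h.degree := by
      rw [hh, degree_mul]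
    rw [degree_cyclotomic, degree_eq_natDegree hh0] at h2
    rw [h2] at hdeg
    have h3 : Nat.totient (p ^ (k + 1)) + h.natDegree < p ^ (k + 1) := by exact_mod_cast hdeg
    have h4 : b ≤ h.natDegree := le_natDegree_of_ne_zero hne
    rw [Nat.totient_prime_pow_succ hp] at h3
    have h5 : p ^ k * (p - 1) + p ^ k = p ^ (k + 1) := by
      obtain ⟨q, hq⟩ : ∃ q, p = q + 1 := ⟨p - 1, (Nat.succ_pred_eq_of_pos hp.pos).symm⟩
      rw [hq]
      simp only [Nat.add_sub_cancel]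
      ring
    omega
  have hval : ∀ a j, a < p ^ k → j < p → F (g ^ (a + j * p ^ k)) = h.coeff a := by
    intro a j ha hj
    have hlt : a + j * p ^ k < p ^ (k + 1) := by
      calc a + j * p ^ k < p ^ k + j * p ^ k := by omega
        _ = (j + 1) * p ^ k := by ring
        _ ≤ p * p ^ k := Nat.mul_le_mul_right _ hj
        _ = p ^ (k + 1) := by ring
    rw [← hcoef _ hlt, hh, cyclotomic_prime_pow_eq_geom_sum hp, Finset.sum_mul, finsetSum_coeff]
    rw [Finset.sum_eq_single j]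
    · rw [← pow_mul, coeff_X_pow_mul', if_pos (by rw [mul_comm]; omega)]
      congr 1
      rw [mul_comm (p ^ k) j]
      omega
    · intro i hi hij
      rw [← pow_mul, coeff_X_pow_mul']
      split_ifs with h1
      · rcases lt_or_gt_of_ne hij with h2 | h2
        · apply hhcoef
          have h3 : p ^ k * i + p ^ k ≤ j * p ^ k := by
            calc p ^ k * i + p ^ k = (i + 1) * p ^ k := by ring
              _ ≤ j * p ^ k := Nat.mul_le_mul_right _ h2
          omega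
        · exfalso
          have h3 : j * p ^ k + p ^ k ≤ p ^ k * i := by
            calc j * p ^ k + p ^ k = (j + 1) * p ^ k := by ring
              _ ≤ i * p ^ k := Nat.mul_le_mul_right _ h2
              _ = p ^ k * i := by ring
          omega
      · rfl
    · intro h1
      exact absurd (mem_range.mpr hj) h1
  -- write `y` as a power
  have hkpos : 0 < p ^ k := pow_pos hp.pos _
  obtain ⟨m, hm, rfl⟩ : ∃ m, m < p ^ (k + 1) ∧ g ^ m = y := by
    have ho : orderOf g = p ^ (k + 1) := by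
      rw [← hN, orderOf_eq_card_of_forall_mem_zpowers hg, Nat.card_eq_fintype_card]
    have h1 : y ∈ Submonoid.powers g := by
      rw [mem_powers_iff_mem_zpowers]
      exact hg y
    obtain ⟨n, hn⟩ := h1
    refine ⟨n % p ^ (k + 1), Nat.mod_lt _ hNpos, ?_⟩
    rw [← ho, pow_mod_orderOf]
    exact hn
  have hmdiv : m = m % p ^ k + (m / p ^ k) * p ^ k := by
    rw [mul_comm]; exact (Nat.mod_add_div _ _).symm
  have ha : m % p ^ k < p ^ k := Nat.mod_lt _ hkpos
  have hj : m / p ^ k < p := by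
    rw [Nat.div_lt_iff_lt_mul hkpos]
    calc m < p ^ (k + 1) := hm
      _ = p * p ^ k := by ring
  rw [← pow_add]
  obtain ⟨a, hadef⟩ : ∃ a, a = m % p ^ k := ⟨_, rfl⟩
  obtain ⟨j, hjdef⟩ : ∃ j, j = m / p ^ k := ⟨_, rfl⟩
  rw [← hadef] at ha hmdiv
  rw [← hjdef] at hj hmdiv
  rw [hmdiv]
  by_cases h1 : j + 1 < p
  · have h2 : p ^ k + (a + j * p ^ k) = a + (j + 1) * p ^ k := by ring
    rw [h2, hval a (j + 1) ha h1, hval a j ha hj]
  · have h2 : j + 1 = p := by omega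
    have h3 : p ^ k + (a + j * p ^ k) = a + p ^ (k + 1) := by
      calc p ^ k + (a + j * p ^ k) = a + (j + 1) * p ^ k := by ring
        _ = a + p ^ (k + 1) := by rw [h2]; ring
    have h4 : g ^ (a + p ^ (k + 1)) = g ^ (a + 0 * p ^ k) := by
      rw [pow_add, zero_mul, add_zero, ← hN, pow_card_eq_one, mul_one]
    rw [h3, h4, hval a 0 ha hp.pos, hval a j ha hj]

/-- sums of invariant functions are divisible by `p`. -/
theorem dvd_sum_of_inv {p : ℕ} {k : ℕ} {G : Type} [CommGroup G] [Fintype G] {g : G}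
    (hg : ∀ x, x ∈ Subgroup.zpowers g) (hN : Fintype.card G = p ^ (k + 1)) (F : G → ℤ)
    (hF : ∀ y, F (g ^ (p ^ k) * y) = F y) : (p : ℤ) ∣ ∑ y, F y := by
  have h1 : ∀ j y, F (g ^ (j * p ^ k) * y) = F y := by
    intro j
    induction j with
    | zero => intro y; rw [zero_mul, pow_zero, one_mul]
    | succ j ih =>
      intro y
      rw [Nat.succ_mul, pow_add, mul_assoc, ih, hF]
  have h2 : ∀ j, ∑ a ∈ range (j * p ^ k), F (g ^ a) = j * ∑ a ∈ range (p ^ k), F (g ^ a) := by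
    intro j
    induction j with
    | zero => simp
    | succ j ih =>
      rw [Nat.succ_mul, Finset.sum_range_add, ih]
      have h3 : ∀ x ∈ range (p ^ k), F (g ^ (j * p ^ k + x)) = F (g ^ x) := by
        intro x _
        rw [pow_add, h1]
      rw [Finset.sum_congr rfl h3]
      push_cast
      ring
  rw [sum_cyclic hg hN, show p ^ (k + 1) = p * p ^ k by ring, h2 p]
  exact Dvd.intro _ rfl

section step

variable {p : ℕ} [hpf : Fact p.Prime] {G : Type} [CommGroup G] [Fintype G]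

/-- the embedding of `Z/p` -/
def ee (y₀ : G) (s : ZMod p) : G := y₀ ^ s.val

theorem ee_add {y₀ : G} (h : y₀ ^ p = 1) (s t : ZMod p) : ee y₀ (s + t) = ee y₀ s * ee y₀ t := by
  unfold ee
  rw [← pow_add, ZMod.val_add, ← pow_eq_pow_mod _ h]

theorem ee_zero (y₀ : G) : ee y₀ (0 : ZMod p) = 1 := by
  unfold ee
  rw [ZMod.val_zero, pow_zero]

/-- the push forward by `(y, s) ↦ y (e s)^r` -/
def tr (y₀ : G) (F : G → ZMod p → ℤ) (r : ℕ) (y : G) : ℤ := ∑ s, F ((ee y₀ s ^ r)⁻¹ * y) s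

/-- the transform -/
def hat (φ : G →* ℂ) (F : G → ZMod p → ℤ) (s : ZMod p) : ℂ := ∑ y, (F y s : ℂ) * φ y

theorem tr_hat (y₀ : G) (φ : G →* ℂ) (F : G → ZMod p → ℤ) (r : ℕ) :
    ∑ y, (tr y₀ F r y : ℂ) * φ y = ∑ s, hat φ F s * (φ y₀ ^ s.val) ^ r := by
  unfold tr hat
  simp only [Int.cast_sum, Finset.sum_mul]
  rw [Finset.sum_comm]
  apply Finset.sum_congr rfl
  intro s _
  rw [← Equiv.sum_comp (Equiv.mulLeft (ee y₀ s ^ r))]
  apply Finset.sum_congr rfl
  intro y _
  rw [Equiv.coe_mulLeft, inv_mul_cancel_left, map_mul, map_pow]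
  unfold ee
  rw [map_pow]
  ring

/-- the convolution equation. -/
def CE (τ J : G → ZMod p → ℤ) : Prop :=
  ∀ y s, ∑ y', ∑ s', τ y' s' * J (y'⁻¹ * y) (s - s') = if s = 0 then 1 else 0

theorem CE.total {τ J : G → ZMod p → ℤ} (h : CE τ J) (y : G) :
    ∑ s', ∑ s'', ∑ z, τ z s' * J (z⁻¹ * y) s'' = 1 := by
  have h1 : ∀ s', ∑ s'', ∑ z, τ z s' * J (z⁻¹ * y) s'' = ∑ s, ∑ z, τ z s' * J (z⁻¹ * y) (s - s') := by
    intro s'
    rw [← Equiv.sum_comp (Equiv.subRight s')]
    rfl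
  rw [Finset.sum_congr rfl fun s' _ => h1 s', Finset.sum_comm]
  have h2 : ∀ s, ∑ s', ∑ z, τ z s' * J (z⁻¹ * y) (s - s') = if s = 0 then 1 else 0 := by
    intro s
    rw [Finset.sum_comm]
    exact h y s
  rw [Finset.sum_congr rfl fun s _ => h2 s, Finset.sum_ite_eq']
  simp

theorem ee_pow_mul_inv {y₀ : G} (hy : y₀ ^ p = 1) (s s' : ZMod p) (r : ℕ) (y z : G) :
    (ee y₀ s ^ r)⁻¹ * ((ee y₀ s' ^ r * z)⁻¹ * y) = z⁻¹ * ((ee y₀ (s + s') ^ r)⁻¹ * y) := by
  rw [ee_add hy, mul_pow, mul_inv, mul_inv]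
  simp only [mul_assoc]
  rw [mul_left_comm z⁻¹, mul_left_comm z⁻¹]

theorem conv_tr {y₀ : G} (hy : y₀ ^ p = 1) {τ J : G → ZMod p → ℤ} (h : CE τ J) (r : ℕ) (y : G) :
    ∑ y', tr y₀ τ r y' * tr y₀ J r (y'⁻¹ * y) = 1 := by
  have h1 : ∑ y', tr y₀ τ r y' * tr y₀ J r (y'⁻¹ * y) =
      ∑ s', ∑ s'', ∑ y', τ ((ee y₀ s' ^ r)⁻¹ * y') s' * J ((ee y₀ s'' ^ r)⁻¹ * (y'⁻¹ * y)) s'' := by
    unfold tr
    simp only [Finset.sum_mul_sum]
    rw [Finset.sum_comm]
    apply Finset.sum_congr rfl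
    intro s' _
    rw [Finset.sum_comm]
  have h2 : ∀ s' s'' : ZMod p, ∑ y', τ ((ee y₀ s' ^ r)⁻¹ * y') s' * J ((ee y₀ s'' ^ r)⁻¹ * (y'⁻¹ * y)) s'' =
      ∑ z, τ z s' * J (z⁻¹ * ((ee y₀ (s'' + s') ^ r)⁻¹ * y)) s'' := by
    intro s' s''
    rw [← Equiv.sum_comp (Equiv.mulLeft (ee y₀ s' ^ r))]
    apply Finset.sum_congr rfl
    intro z _
    rw [Equiv.coe_mulLeft, inv_mul_cancel_left, ee_pow_mul_inv hy]
  have h3 : ∀ s' : ZMod p, ∑ s'', ∑ y', τ ((ee y₀ s' ^ r)⁻¹ * y') s' * J ((ee y₀ s'' ^ r)⁻¹ * (y'⁻¹ * y)) s'' =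
      ∑ s, ∑ z, τ z s' * J (z⁻¹ * ((ee y₀ s ^ r)⁻¹ * y)) (s - s') := by
    intro s'
    rw [Finset.sum_congr rfl fun s'' _ => h2 s' s'', ← Equiv.sum_comp (Equiv.subRight s')]
    apply Finset.sum_congr rfl
    intro s _
    rw [Equiv.subRight_apply, sub_add_cancel]
  rw [h1, Finset.sum_congr rfl fun s' _ => h3 s', Finset.sum_comm]
  have h4 : ∀ s : ZMod p, ∑ s', ∑ z, τ z s' * J (z⁻¹ * ((ee y₀ s ^ r)⁻¹ * y)) (s - s') = if s = 0 then 1 else 0 := by
    intro s
    rw [Finset.sum_comm]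
    exact h _ s
  rw [Finset.sum_congr rfl fun s _ => h4 s, Finset.sum_ite_eq']
  simp

/-- the average over the subgroup of order `p` -/
def av (y₀ : G) (F : G → ZMod p → ℤ) (y : G) : ℤ := ∑ u : ZMod p, ∑ s, F (ee y₀ u * y) s

theorem ee_inv {y₀ : G} {T : G → ℤ} (h : ∀ y, T (y₀ * y) = T y) (u : ZMod p) (y : G) : T (ee y₀ u * y) = T y := by
  have h1 : ∀ j : ℕ, ∀ y, T (y₀ ^ j * y) = T y := by
    intro j
    induction j with
    | zero => intro y; rw [pow_zero, one_mul]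
    | succ j ih => intro y; rw [pow_succ, mul_assoc, ih, h]
  exact h1 _ y

theorem av_eq {y₀ : G} (hy : y₀ ^ p = 1) {F : G → ZMod p → ℤ} {r : ℕ} (h : ∀ y, tr y₀ F r (y₀ * y) = tr y₀ F r y)
    (y : G) : av y₀ F y = p * tr y₀ F r y := by
  have h1 : ∑ u : ZMod p, tr y₀ F r (ee y₀ u * y) = p * tr y₀ F r y := by
    rw [Finset.sum_congr rfl fun u _ => ee_inv h u y, Finset.sum_const, Finset.card_univ, ZMod.card, nsmul_eq_mul]
  rw [← h1]
  unfold av tr
  rw [Finset.sum_comm]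
  conv_rhs => rw [Finset.sum_comm]
  apply Finset.sum_congr rfl
  intro s _
  rw [← Equiv.sum_comp (Equiv.subRight ((r : ZMod p) * s))]
  apply Finset.sum_congr rfl
  intro u _
  congr 1
  rw [Equiv.subRight_apply, ← mul_assoc]
  congr 1
  have h2 : ee y₀ ((r : ZMod p) * s) = ee y₀ s ^ r := by
    clear h h1
    induction r with
    | zero => rw [Nat.cast_zero, zero_mul, ee_zero, pow_zero]
    | succ r ih => rw [Nat.cast_succ, add_mul, one_mul, ee_add hy, ih, pow_succ]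
  rw [← h2, eq_inv_mul_iff_mul_eq, ← ee_add hy]
  congr 1
  ring

theorem av_conv {y₀ : G} {τ J : G → ZMod p → ℤ} (h : CE τ J) (y : G) :
    ∑ y', av y₀ τ y' * av y₀ J (y'⁻¹ * y) = p * p := by
  have h1 : ∑ y', av y₀ τ y' * av y₀ J (y'⁻¹ * y) =
      ∑ u : ZMod p, ∑ u' : ZMod p, ∑ s', ∑ s'', ∑ y', τ (ee y₀ u * y') s' * J (ee y₀ u' * (y'⁻¹ * y)) s'' := by
    unfold av
    simp only [Finset.sum_mul_sum]
    rw [Finset.sum_comm]
    apply Finset.sum_congr rfl
    intro u _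
    rw [Finset.sum_comm]
    apply Finset.sum_congr rfl
    intro u' _
    rw [Finset.sum_comm]
    apply Finset.sum_congr rfl
    intro s' _
    rw [Finset.sum_comm]
  have h2 : ∀ (u u' : ZMod p) (s' s'' : ZMod p), ∑ y', τ (ee y₀ u * y') s' * J (ee y₀ u' * (y'⁻¹ * y)) s'' =
      ∑ z, τ z s' * J (z⁻¹ * (ee y₀ u' * ee y₀ u * y)) s'' := by
    intro u u' s' s''
    rw [← Equiv.sum_comp (Equiv.mulLeft (ee y₀ u)⁻¹)]
    apply Finset.sum_congr rfl
    intro z _
    rw [Equiv.coe_mulLeft, mul_inv_cancel_left, mul_inv, inv_inv]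
    congr 2
    simp only [mul_assoc]
    rw [mul_left_comm z⁻¹, mul_left_comm z⁻¹]
  have h3 : ∀ u u' : ZMod p, ∑ s', ∑ s'', ∑ y', τ (ee y₀ u * y') s' * J (ee y₀ u' * (y'⁻¹ * y)) s'' = 1 := by
    intro u u'
    simp only [h2]
    exact h.total _
  rw [h1]
  simp only [h3, Finset.sum_const, Finset.card_univ, ZMod.card, nsmul_eq_mul, mul_one]

/-- mixed types are impossible. -/
theorem no_mixed {k : ℕ} {g : G} (hg : ∀ x, x ∈ Subgroup.zpowers g) (hN : Fintype.card G = p ^ (k + 1))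
    {τ J : G → ZMod p → ℤ} (h : CE τ J) {r r' : ℕ}
    (h1 : ∀ y, tr (g ^ (p ^ k)) τ r (g ^ (p ^ k) * y) = tr (g ^ (p ^ k)) τ r y)
    (h2 : ∀ y, tr (g ^ (p ^ k)) J r' (g ^ (p ^ k) * y) = tr (g ^ (p ^ k)) J r' y) : False := by
  have hp := hpf.out
  set y₀ := g ^ (p ^ k) with hy₀
  have hy : y₀ ^ p = 1 := by
    rw [hy₀, ← pow_mul, ← pow_succ, ← hN, pow_card_eq_one]
  have h3 := av_conv (y₀ := y₀) h 1
  have h4 : ∀ y', av y₀ τ y' * av y₀ J (y'⁻¹ * 1) = (p * p) * (tr y₀ τ r y' * tr y₀ J r' (y'⁻¹ * 1)) := by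
    intro y'
    rw [av_eq hy h1, av_eq hy h2]
    ring
  rw [Finset.sum_congr rfl fun y' _ => h4 y', ← Finset.mul_sum] at h3
  have hp0 : (p : ℤ) * p ≠ 0 := by
    have : (p : ℤ) ≠ 0 := by exact_mod_cast hp.ne_zero
    exact mul_ne_zero this this
  have h5 : ∑ y', tr y₀ τ r y' * tr y₀ J r' (y'⁻¹ * 1) = 1 := by
    apply mul_left_cancel₀ hp0
    rw [h3, mul_one]
  have h6 : (p : ℤ) ∣ ∑ y', tr y₀ τ r y' * tr y₀ J r' (y'⁻¹ * 1) := by
    apply dvd_sum_of_inv hg hN
    intro y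
    have h7 : tr y₀ J r' ((y₀ * y)⁻¹ * 1) = tr y₀ J r' (y⁻¹ * 1) := by
      rw [← h2 ((y₀ * y)⁻¹ * 1)]
      congr 1
      rw [mul_inv, mul_one, mul_one, mul_inv_cancel_left]
    rw [h1, h7]
  rw [h5] at h6
  have h8 := Int.eq_one_of_dvd_one (by positivity) h6
  have h9 : p = 1 := by exact_mod_cast h8
  exact hp.one_lt.ne' h9

/-- Fourier inversion on `Z/p`. -/
theorem hat_zero {ω : ℂ} (hω : IsPrimitiveRoot ω p) (c : ZMod p → ℂ) (h : ∀ r : ℕ, ∑ s, c s * (ω ^ s.val) ^ r = 0)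
    (s₀ : ZMod p) : c s₀ = 0 := by
  have hp := hpf.out
  have hω0 : ω ≠ 0 := hω.ne_zero hp.ne_zero
  have h1 : ∑ r ∈ range p, ∑ s, c s * (ω ^ s.val / ω ^ s₀.val) ^ r = 0 := by
    apply Finset.sum_eq_zero
    intro r _
    have h2 : ∀ s : ZMod p, c s * (ω ^ s.val / ω ^ s₀.val) ^ r = (c s * (ω ^ s.val) ^ r) * ((ω ^ s₀.val) ^ r)⁻¹ := by
      intro s
      rw [div_pow]
      ring
    rw [Finset.sum_congr rfl fun s _ => h2 s, ← Finset.sum_mul, h r, zero_mul]
  rw [Finset.sum_comm] at h1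
  have h3 : ∀ s : ZMod p, ∑ r ∈ range p, c s * (ω ^ s.val / ω ^ s₀.val) ^ r = if s = s₀ then c s * p else 0 := by
    intro s
    rw [← Finset.mul_sum]
    split_ifs with hs
    · rw [hs, div_self (pow_ne_zero _ hω0)]
      simp
    · have hne : ω ^ s.val / ω ^ s₀.val ≠ 1 := by
        intro h4
        rw [div_eq_one_iff_eq (pow_ne_zero _ hω0)] at h4
        have h5 := hω.pow_inj (ZMod.val_lt s) (ZMod.val_lt s₀) h4
        exact hs (ZMod.val_injective p h5)
      have h6 : (ω ^ s.val / ω ^ s₀.val) ^ p = 1 := by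
        rw [div_pow, ← pow_mul, ← pow_mul, mul_comm, mul_comm s₀.val, pow_mul, pow_mul, hω.pow_eq_one, one_pow, one_pow,
          div_one]
      have h7 : (∑ r ∈ range p, (ω ^ s.val / ω ^ s₀.val) ^ r) = 0 := by
        have h8 := geom_sum_mul (ω ^ s.val / ω ^ s₀.val) p
        rw [h6, sub_self] at h8
        exact (mul_eq_zero.mp h8).resolve_right (sub_ne_zero.mpr hne)
      rw [h7, mul_zero]
  rw [Finset.sum_congr rfl fun s _ => h3 s, Finset.sum_ite_eq'] at h1
  simp only [mem_univ, if_true] at h1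
  have hp0 : (p : ℂ) ≠ 0 := by exact_mod_cast hp.ne_zero
  exact (mul_eq_zero.mp h1).resolve_right hp0

/-- the dichotomy. -/
theorem dichotomy {k : ℕ} {g : G} (hg : ∀ x, x ∈ Subgroup.zpowers g) (hN : Fintype.card G = p ^ (k + 1))
    {τ J : G → ZMod p → ℤ} (h : CE τ J) :
    (∀ y s, τ (g ^ (p ^ k) * y) s = τ y s) ∨ ∀ y s, J (g ^ (p ^ k) * y) s = J y s := by
  have hp := hpf.out
  have ho : orderOf g = p ^ (k + 1) := by
    rw [← hN, orderOf_eq_card_of_forall_mem_zpowers hg, Nat.card_eq_fintype_card]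
  set ζ : ℂ := Complex.exp (2 * Real.pi * Complex.I / ((p ^ (k + 1) : ℕ) : ℂ)) with hζ
  have hζp : IsPrimitiveRoot ζ (p ^ (k + 1)) := Complex.isPrimitiveRoot_exp _ (pow_ne_zero _ hp.ne_zero)
  have hζ0 : ζ ≠ 0 := hζp.ne_zero (pow_ne_zero _ hp.ne_zero)
  set u : ℂˣ := Units.mk0 ζ hζ0 with hu
  have hou : orderOf u ∣ orderOf g := by
    rw [ho]
    apply orderOf_dvd_of_pow_eq_one
    apply Units.ext
    rw [Units.val_pow_eq_pow_val, hu, Units.val_mk0, hζp.pow_eq_one]
    rfl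
  set φ : G →* ℂ := (Units.coeHom ℂ).comp (monoidHomOfForallMemZpowers hg hou) with hφ
  have hφg : φ g = ζ := by
    rw [hφ, MonoidHom.comp_apply, monoidHomOfForallMemZpowers_apply_gen]
    rfl
  have hφp : IsPrimitiveRoot (φ g) (p ^ (k + 1)) := by rw [hφg]; exact hζp
  have hω : IsPrimitiveRoot (φ (g ^ (p ^ k))) p := by
    rw [map_pow]
    exact hφp.pow (pow_pos hp.pos _) (by ring)
  have hy : (g ^ (p ^ k)) ^ p = 1 := by
    rw [← pow_mul, ← pow_succ, ← hN, pow_card_eq_one]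
  have hsum : ∑ y, φ y = 0 := by
    rw [sum_cyclic hg hN]
    simp only [map_pow]
    have h8 := geom_sum_mul (φ g) (p ^ (k + 1))
    rw [hφp.pow_eq_one, sub_self] at h8
    refine (mul_eq_zero.mp h8).resolve_right (sub_ne_zero.mpr ?_)
    exact hφp.ne_one (Nat.one_lt_pow (Nat.succ_ne_zero k) hp.one_lt)
  have hprod : ∀ r : ℕ, (∑ y, (tr (g ^ (p ^ k)) τ r y : ℂ) * φ y) * ∑ y, (tr (g ^ (p ^ k)) J r y : ℂ) * φ y = 0 := by
    intro r
    rw [Finset.sum_mul_sum]
    have h1 : ∀ y', ∑ y'', ((tr (g ^ (p ^ k)) τ r y' : ℂ) * φ y') * ((tr (g ^ (p ^ k)) J r y'' : ℂ) * φ y'') =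
        ∑ y, ((tr (g ^ (p ^ k)) τ r y' * tr (g ^ (p ^ k)) J r (y'⁻¹ * y) : ℤ) : ℂ) * φ y := by
      intro y'
      rw [← Equiv.sum_comp (Equiv.mulLeft y'⁻¹)]
      apply Finset.sum_congr rfl
      intro y _
      rw [Equiv.coe_mulLeft]
      have h2 : φ y = φ y' * φ (y'⁻¹ * y) := by rw [← map_mul, mul_inv_cancel_left]
      rw [h2]
      push_cast
      ring
    rw [Finset.sum_congr rfl fun y' _ => h1 y', Finset.sum_comm]
    have h3 : ∀ y, ∑ y', ((tr (g ^ (p ^ k)) τ r y' * tr (g ^ (p ^ k)) J r (y'⁻¹ * y) : ℤ) : ℂ) * φ y = φ y := by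
      intro y
      rw [← Finset.sum_mul, ← Int.cast_sum, conv_tr hy h r y, Int.cast_one, one_mul]
    rw [Finset.sum_congr rfl fun y _ => h3 y, hsum]
  by_cases hT : ∀ r : ℕ, ∑ y, (tr (g ^ (p ^ k)) τ r y : ℂ) * φ y = 0
  · left
    intro y s
    apply inv_of_sum_zero hp hg hN hφp (fun y => τ y s)
    apply hat_zero hω (hat φ τ)
    intro r
    rw [← tr_hat]
    exact hT r
  · right
    push Not at hT
    obtain ⟨r, hr⟩ := hT
    have hJr := (mul_eq_zero.mp (hprod r)).resolve_left hr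
    have hJinv := inv_of_sum_zero hp hg hN hφp (tr (g ^ (p ^ k)) J r) hJr
    have hJ : ∀ r' : ℕ, ∑ y, (tr (g ^ (p ^ k)) J r' y : ℂ) * φ y = 0 := by
      intro r'
      by_contra hne
      have hTr := (mul_eq_zero.mp (hprod r')).resolve_right hne
      have hTinv := inv_of_sum_zero hp hg hN hφp (tr (g ^ (p ^ k)) τ r') hTr
      exact no_mixed hg hN h hTinv hJinv
    intro y s
    apply inv_of_sum_zero hp hg hN hφp (fun y => J y s)
    apply hat_zero hω (hat φ J)
    intro r'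
    rw [← tr_hat]
    exact hJ r'

/-- the push forward to a quotient. -/
def pf (P : Subgroup G) (F : G → ZMod p → ℤ) (q : G ⧸ P) (s : ZMod p) : ℤ := by
  classical
  exact ∑ y, if (QuotientGroup.mk y : G ⧸ P) = q then F y s else 0

theorem desc {P : Subgroup G} {y₀ : G} (hP : P = Subgroup.zpowers y₀) {F : G → ZMod p → ℤ}
    (hF : ∀ y s, F (y₀ * y) s = F y s) (y : G) (s : ZMod p) :
    F (QuotientGroup.mk y : G ⧸ P).out s = F y s := by
  have h1 : ∀ u ∈ P, ∀ y s, F (u * y) s = F y s := by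
    intro u hu
    rw [hP, Subgroup.mem_zpowers_iff] at hu
    obtain ⟨m, rfl⟩ := hu
    induction m using Int.induction_on with
    | zero => intro y s; rw [zpow_zero, one_mul]
    | succ m ih => intro y s; rw [zpow_add_one, mul_assoc, ih, hF]
    | pred m ih =>
      intro y s
      rw [zpow_sub_one, mul_assoc, ih, ← hF (y₀⁻¹ * y), mul_inv_cancel_left]
  have h2 : (QuotientGroup.mk y : G ⧸ P).out⁻¹ * y ∈ P := by
    rw [← QuotientGroup.eq, QuotientGroup.out_eq']
  have h3 := h1 _ (P.inv_mem h2) y s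
  rw [mul_inv, inv_inv] at h3
  rw [← h3]
  congr 1
  rw [mul_assoc, inv_mul_cancel, mul_one]

theorem ce_left {P : Subgroup G} {y₀ : G} (hP : P = Subgroup.zpowers y₀) [Fintype (G ⧸ P)] {τ J : G → ZMod p → ℤ}
    (h : CE τ J) (hF : ∀ y s, τ (y₀ * y) s = τ y s) :
    CE (G := G ⧸ P) (fun q s => τ q.out s) (pf P J) := by
  classical
  intro q s
  obtain ⟨y, rfl⟩ := QuotientGroup.mk_surjective q
  rw [← h y s]
  have h1 : ∀ q' : G ⧸ P, ∑ s', τ q'.out s' * pf P J (q'⁻¹ * QuotientGroup.mk y) (s - s') =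
      ∑ y', if (QuotientGroup.mk y' : G ⧸ P) = q' then ∑ s', τ y' s' * J (y'⁻¹ * y) (s - s') else 0 := by
    intro q'
    have h2 : ∀ s', τ q'.out s' * pf P J (q'⁻¹ * QuotientGroup.mk y) (s - s') =
        ∑ y', if (QuotientGroup.mk y' : G ⧸ P) = q' then τ y' s' * J (y'⁻¹ * y) (s - s') else 0 := by
      intro s'
      unfold pf
      rw [Finset.mul_sum, ← Equiv.sum_comp ((Equiv.inv G).trans (Equiv.mulRight y))]
      apply Finset.sum_congr rfl
      intro y' _
      have h3 : ((Equiv.inv G).trans (Equiv.mulRight y)) y' = y'⁻¹ * y := rfl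
      rw [h3]
      by_cases h4 : (QuotientGroup.mk y' : G ⧸ P) = q'
      · rw [if_pos h4, if_pos]
        · rw [← h4, desc hP hF]
        · rw [QuotientGroup.mk_mul, QuotientGroup.mk_inv, h4]
      · rw [if_neg h4, if_neg, mul_zero]
        intro h5
        apply h4
        rw [QuotientGroup.mk_mul, QuotientGroup.mk_inv] at h5
        exact inv_injective (mul_right_cancel h5)
    rw [Finset.sum_congr rfl fun s' _ => h2 s', Finset.sum_comm]
    apply Finset.sum_congr rfl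
    intro y' _
    split_ifs
    · rfl
    · simp
  rw [Finset.sum_congr rfl fun q' _ => h1 q', Finset.sum_comm]
  apply Finset.sum_congr rfl
  intro y' _
  rw [Finset.sum_ite_eq]
  simp

theorem ce_right {P : Subgroup G} {y₀ : G} (hP : P = Subgroup.zpowers y₀) [Fintype (G ⧸ P)] {τ J : G → ZMod p → ℤ}
    (h : CE τ J) (hF : ∀ y s, J (y₀ * y) s = J y s) :
    CE (G := G ⧸ P) (pf P τ) (fun q s => J q.out s) := by
  classical
  intro q s
  obtain ⟨y, rfl⟩ := QuotientGroup.mk_surjective q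
  rw [← h y s]
  have h1 : ∀ q' : G ⧸ P, ∑ s', pf P τ q' s' * J (q'⁻¹ * QuotientGroup.mk y).out (s - s') =
      ∑ y', if (QuotientGroup.mk y' : G ⧸ P) = q' then ∑ s', τ y' s' * J (y'⁻¹ * y) (s - s') else 0 := by
    intro q'
    have h2 : ∀ s', pf P τ q' s' * J (q'⁻¹ * QuotientGroup.mk y).out (s - s') =
        ∑ y', if (QuotientGroup.mk y' : G ⧸ P) = q' then τ y' s' * J (y'⁻¹ * y) (s - s') else 0 := by
      intro s'
      unfold pf
      rw [Finset.sum_mul]
      apply Finset.sum_congr rfl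
      intro y' _
      by_cases h4 : (QuotientGroup.mk y' : G ⧸ P) = q'
      · rw [if_pos h4, if_pos h4, ← h4, ← QuotientGroup.mk_inv, ← QuotientGroup.mk_mul, desc hP hF]
      · rw [if_neg h4, if_neg h4, zero_mul]
    rw [Finset.sum_congr rfl fun s' _ => h2 s', Finset.sum_comm]
    apply Finset.sum_congr rfl
    intro y' _
    split_ifs
    · rfl
    · simp
  rw [Finset.sum_congr rfl fun q' _ => h1 q', Finset.sum_comm]
  apply Finset.sum_congr rfl
  intro y' _
  rw [Finset.sum_ite_eq]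
  simp

end step

/-- the support of a nonnegative solution lies over one point. -/
theorem cyc_main {p : ℕ} [hpf : Fact p.Prime] : ∀ (k : ℕ) (G : Type) [CommGroup G] [Fintype G] [IsCyclic G],
    Fintype.card G = p ^ k → ∀ τ J : G → ZMod p → ℤ, (∀ y s, 0 ≤ τ y s) → CE τ J →
    ∃ s₀, ∀ y s, τ y s ≠ 0 → s = s₀ := by
  have hp := hpf.out
  intro k
  induction k with
  | zero =>
    intro G _ _ _ hN τ J hτ h
    rw [pow_zero] at hN
    haveI : Subsingleton G := Fintype.card_le_one_iff_subsingleton.mp hN.le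
    have h1 := h.total 1
    have h2 : ∀ s' s'' : ZMod p, ∑ z, τ z s' * J (z⁻¹ * 1) s'' = τ 1 s' * J 1 s'' := by
      intro s' s''
      rw [Fintype.sum_subsingleton _ (1 : G), inv_one, mul_one]
    simp only [h2] at h1
    rw [← Finset.sum_mul_sum] at h1
    have h3 : ∑ s', τ 1 s' = 1 := by
      have h4 : 0 ≤ ∑ s', τ 1 s' := Finset.sum_nonneg fun s' _ => hτ 1 s'
      rcases Int.eq_one_or_neg_one_of_mul_eq_one h1 with h5 | h5
      · exact h5
      · omega
    obtain ⟨s₀, hs₀⟩ : ∃ s₀, τ 1 s₀ ≠ 0 := by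
      by_contra hcon
      push Not at hcon
      rw [Finset.sum_congr rfl fun s _ => hcon s, Finset.sum_const_zero] at h3
      exact zero_ne_one h3
    refine ⟨s₀, fun y s hs => ?_⟩
    rw [Subsingleton.elim y 1] at hs
    by_contra hne
    have h4 : τ 1 s₀ + τ 1 s ≤ ∑ s', τ 1 s' := by
      have h5 := Finset.add_le_sum (s := univ) (f := fun s' => τ 1 s') (fun i _ => hτ 1 i) (mem_univ s₀) (mem_univ s)
        (Ne.symm hne)
      exact h5
    have h6 := hτ 1 s₀
    have h7 := hτ 1 s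
    rw [h3] at h4
    omega
  | succ k ih =>
    intro G _ _ _ hN τ J hτ h
    obtain ⟨g, hg⟩ := IsCyclic.exists_generator (α := G)
    set y₀ := g ^ (p ^ k) with hy₀
    set P : Subgroup G := Subgroup.zpowers y₀ with hP
    haveI : Fintype (G ⧸ P) := Fintype.ofFinite _
    haveI : IsCyclic (G ⧸ P) := isCyclic_of_surjective (QuotientGroup.mk' P) (QuotientGroup.mk'_surjective P)
    have ho : orderOf g = p ^ (k + 1) := by
      rw [← hN, orderOf_eq_card_of_forall_mem_zpowers hg, Nat.card_eq_fintype_card]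
    have hcP : Nat.card P = p := by
      rw [hP, Nat.card_zpowers, hy₀, orderOf_pow' _ (pow_ne_zero _ hp.ne_zero), ho]
      have h1 : Nat.gcd (p ^ (k + 1)) (p ^ k) = p ^ k := Nat.gcd_eq_right (pow_dvd_pow p (Nat.le_succ k))
      rw [h1, pow_succ, Nat.mul_div_cancel_left _ (pow_pos hp.pos k)]
    have hcQ : Fintype.card (G ⧸ P) = p ^ k := by
      have h1 := Subgroup.card_eq_card_quotient_mul_card_subgroup P
      rw [hcP, Nat.card_eq_fintype_card, Nat.card_eq_fintype_card, hN, pow_succ] at h1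
      exact (Nat.eq_of_mul_eq_mul_right hp.pos h1).symm
    rcases dichotomy hg hN h with h1 | h1
    · obtain ⟨s₀, hs₀⟩ := ih (G ⧸ P) hcQ _ _ (fun q s => hτ _ _) (ce_left hP h h1)
      refine ⟨s₀, fun y s hs => hs₀ (QuotientGroup.mk y) s ?_⟩
      rw [desc hP h1]
      exact hs
    · obtain ⟨s₀, hs₀⟩ := ih (G ⧸ P) hcQ _ _ (fun q s => by
        unfold pf
        exact Finset.sum_nonneg fun y _ => by split_ifs; exacts [hτ y s, le_refl 0]) (ce_right hP h h1)
      refine ⟨s₀, fun y s hs => hs₀ (QuotientGroup.mk y) s ?_⟩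
      intro h2
      unfold pf at h2
      have h3 := (Finset.sum_eq_zero_iff_of_nonneg (fun y _ => by split_ifs; exacts [hτ y s, le_refl 0])).mp h2 y
        (mem_univ y)
      rw [if_pos rfl] at h3
      exact hs h3

end Pool.Agent.helper11.Disk
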