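import Pool.Agent.helper11.Disk.First

/-!
# Dissections of the disk: the isometries fix the centre
-/

set_option autoImplicit false
set_option linter.unusedSectionVars false
set_option linter.style.haveILetI false
set_option linter.unusedVariables false

open Set Filter Topology MeasureTheory Metric
open scoped ENNReal NNReal
open Pool.Agent.helper15.Hexagon

noncomputable section

namespace Pool.Agent.helper11.Disk

/-- the data of a family of isometries on the module of translations. -/
theorem exists_dat {n : ℕ} {P : Fin n → Set ℂ} (hP : CongruentDissection (closedBall 0 1) n P)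
    (i₀ : Fin n) (hi₀ : (i₀ : ℕ) = 0) (h : Fin n → Iso) (h1 : h i₀ = 1) (hh : ∀ i, h i '' P i₀ = P i)
    (G : Subgroup LIso) (hG : G = Subgroup.closure (Set.range fun i => lin (h i))) [Finite G]
    (hA : ∀ i, lin (h i) ∈ G) :
    letI := actB G (transl G h) (transl_stable G h)
    ∃ w : transl G h →₀ ℤ, Dat n (fun i => (⟨lin (h i), hA i⟩ : G))
      (fun i => (⟨h i 0, mem_transl G h i⟩ : transl G h)) w i₀ := by
  classical
  letI := actB G (transl G h) (transl_stable G h)
  haveI := transl_finite G h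
  haveI := transl_free G h
  haveI : Countable (transl G h) := countable_of_finite_free
  obtain ⟨w, hw⟩ := exists_weight hP i₀ h hh G (transl G h) (transl_stable G h) hA (mem_transl G h)
  refine ⟨w, hP.two_le, hw, hi₀, ?_, ?_, ?_⟩
  · apply Subtype.ext
    show lin (h i₀) = 1
    rw [h1, lin_one]
  · apply Subtype.ext
    show h i₀ 0 = 0
    rw [h1]
    rfl
  · intro p hp χ hχ hb
    have key : ∀ x (hx : x ∈ AddSubgroup.closure {x | ∃ A ∈ G, ∃ i, x = A (h i 0)}),
        χ (⟨x, hx⟩ : transl G h) = 0 := by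
      intro x hx
      induction hx using AddSubgroup.closure_induction with
      | mem y hy =>
        obtain ⟨C, hC, i, rfl⟩ := hy
        have h2 := hχ ⟨C, hC⟩ ⟨h i 0, mem_transl G h i⟩
        rw [hb i] at h2
        exact h2
      | zero => exact map_zero χ
      | add y z hy hz h2 h3 =>
        have h4 := map_add χ (⟨y, hy⟩ : transl G h) ⟨z, hz⟩
        rw [h2, h3, add_zero] at h4
        exact h4
      | neg y hy h2 =>
        have h4 := map_neg χ (⟨y, hy⟩ : transl G h)
        rw [h2, neg_zero] at h4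
        exact h4
    ext ⟨x, hx⟩
    exact key x hx

/-- the admissible point groups. -/
def Adm (n : ℕ) (G : Subgroup LIso) : Prop :=
  Nat.card G ∣ 8 ∨ (∃ p k : ℕ, p.Prime ∧ n = p ^ k ∧ Nat.card G ∣ p ^ k) ∨
    ((∃ p k : ℕ, p.Prime ∧ Nat.card G = p ^ k) ∧ ∀ A ∈ G, ∃ a : Circle, A = rotation a)

theorem Adm.mono {n : ℕ} {G G' : Subgroup LIso} (h : G' ≤ G) (hG : Adm n G) : Adm n G' := by
  have hdvd : Nat.card G' ∣ Nat.card G := Subgroup.card_dvd_of_le h
  rcases hG with hc | ⟨p, k, hp, hn, hc⟩ | ⟨⟨p, k, hp, hc⟩, hrot⟩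
  · exact Or.inl (hdvd.trans hc)
  · exact Or.inr (Or.inl ⟨p, k, hp, hn, hdvd.trans hc⟩)
  · refine Or.inr (Or.inr ⟨?_, fun A hA => hrot A (h hA)⟩)
    rw [hc] at hdvd
    obtain ⟨m, -, hm⟩ := (Nat.dvd_prime_pow hp).mp hdvd
    exact ⟨p, m, hp, hm⟩

theorem core {n : ℕ} {P : Fin n → Set ℂ} (hP : CongruentDissection (closedBall 0 1) n P)
    (i₀ : Fin n) (hi₀ : (i₀ : ℕ) = 0) (h : Fin n → Iso) (h1 : h i₀ = 1) (hh : ∀ i, h i '' P i₀ = P i)
    (hfin : Finite (Subgroup.closure (Set.range fun i => lin (h i))))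
    (hcard : Adm n (Subgroup.closure (Set.range fun i => lin (h i)))) (i : Fin n) : h i 0 = 0 := by
  classical
  obtain ⟨G, hG⟩ : ∃ G, G = Subgroup.closure (Set.range fun i => lin (h i)) := ⟨_, rfl⟩
  rw [← hG] at hfin hcard
  have hA : ∀ i, lin (h i) ∈ G := fun i => by rw [hG]; exact Subgroup.subset_closure ⟨i, rfl⟩
  letI := actB G (transl G h) (transl_stable G h)
  haveI := transl_finite G h
  haveI := transl_free G h
  obtain ⟨w, hdat⟩ := exists_dat hP i₀ hi₀ h h1 hh G hG hA
  have hgenA : Subgroup.closure (Set.range fun i => (⟨lin (h i), hA i⟩ : G)) = ⊤ := by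
    subst hG
    have h2 := Subgroup.closure_closure_coe_preimage (k := Set.range fun i => lin (h i))
    rw [← h2]
    congr 1
    ext x
    constructor
    · rintro ⟨i, rfl⟩
      exact ⟨i, rfl⟩
    · rintro ⟨i, hi⟩
      exact ⟨i, Subtype.ext hi⟩
  have hsub : Subsingleton (transl G h) := by
    rcases hcard with hc | ⟨p, k, hp, hn, hc⟩ | ⟨⟨p, k, hp, hc⟩, hrot⟩
    · exact rigid_eight hdat hc hgenA (fun h8 hnt χ => two_chars G (transl G h) (transl_stable G h) h8 χ)
    · refine rigid_pp hdat hp hn (Nat.dvd_antisymm hc ?_)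
      rw [← hn]
      exact hdat.dvd
    · by_contra hcon
      rw [not_subsingleton_iff_nontrivial] at hcon
      haveI := Fact.mk hp
      haveI : IsCyclic G := cyclic_of_rot G hrot
      haveI : Countable (transl G h) := countable_of_finite_free
      obtain ⟨χ, hχ0, hχ⟩ := exists_inv (B := transl G h) (G := G) (p := p) (IsPGroup.of_card hc)
      apply hχ0
      apply hdat.gen p hp χ hχ
      obtain ⟨J, hJ⟩ := exists_first hP i₀ h hh G (transl G h) (transl_stable G h) hA (mem_transl G h) χ
        (fun A hA x hx => hχ ⟨A, hA⟩ ⟨x, hx⟩)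
      intro i
      have h2 := rigid_cyc hc _ _ hJ i i₀
      rw [h2]
      have h3 : (⟨h i₀ 0, mem_transl G h i₀⟩ : transl G h) = 0 := by
        apply Subtype.ext
        show h i₀ 0 = 0
        rw [h1]
        rfl
      rw [h3, map_zero]
  exact congrArg Subtype.val (hsub.elim (⟨h i 0, mem_transl G h i⟩ : transl G h) 0)

theorem core2 {n : ℕ} {P : Fin n → Set ℂ} (hP : CongruentDissection (closedBall 0 1) n P)
    (i₀ : Fin n) (g : Fin n → Iso) (hg : ∀ i, g i '' P i₀ = P i) (G : Subgroup LIso) [Finite G]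
    (hgG : ∀ i, lin (g i) ∈ G) (hcard : Adm n G) : ∃ c : ℂ, ∀ i, g i c = 0 := by
  have hn : 0 < n := lt_of_lt_of_le two_pos hP.two_le
  set z : Fin n := ⟨0, hn⟩ with hz
  set h : Fin n → Iso := fun i => g i * (g z)⁻¹ with hh
  have hle : Subgroup.closure (Set.range fun i => lin (h i)) ≤ G := by
    rw [Subgroup.closure_le]
    rintro _ ⟨i, rfl⟩
    show lin (g i * (g z)⁻¹) ∈ G
    rw [lin_mul, lin_inv]
    exact G.mul_mem (hgG i) (G.inv_mem (hgG z))
  have hfin : Finite (Subgroup.closure (Set.range fun i => lin (h i))) :=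
    Finite.of_injective _ (Subgroup.inclusion_injective hle)
  refine ⟨((g z)⁻¹ : Iso) 0, fun i => ?_⟩
  apply core hP z rfl h (mul_inv_cancel _) ?_ hfin (hcard.mono hle) i
  intro j
  have h1 : ((g z)⁻¹ : Iso) '' P z = P i₀ := by
    rw [← hg z, Set.image_image]
    have h2 : ∀ x, ((g z)⁻¹ : Iso) (g z x) = x := fun x => by
      rw [AffineIsometryEquiv.coe_inv, AffineIsometryEquiv.symm_apply_apply]
    simp only [h2, Set.image_id']
  rw [← hg j, ← h1, Set.image_image]
  rfl

theorem core3 {n : ℕ} {P : Fin n → Set ℂ} (hP : CongruentDissection (closedBall 0 1) n P)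
    (i₀ : Fin n) (g : Fin n → Iso) (hg : ∀ i, g i '' P i₀ = P i) (G : Subgroup LIso) [Finite G]
    (hgG : ∀ i, lin (g i) ∈ G) (hcard : Adm n G) (i : Fin n) : g i 0 = 0 := by
  classical
  -- the family with the identity at `i₀`
  set g' : Fin n → Iso := fun i => if i = i₀ then 1 else g i with hg'
  have hg'i : ∀ i, g' i '' P i₀ = P i := by
    intro i
    by_cases h : i = i₀
    · simp only [hg', h, if_true]
      show (fun x => x) '' P i₀ = P i₀
      rw [Set.image_id']
    · simp only [hg', if_neg h]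
      exact hg i
  have hg'G : ∀ i, lin (g' i) ∈ G := by
    intro i
    by_cases h : i = i₀
    · simp only [hg', h, if_true]
      rw [lin_one]
      exact G.one_mem
    · simp only [hg', if_neg h]
      exact hgG i
  obtain ⟨c', hc'⟩ := core2 hP i₀ g' hg'i G hg'G hcard
  have h0 : c' = 0 := by
    have h1 := hc' i₀
    simp only [hg', if_true] at h1
    exact h1
  have hne : ∀ i, i ≠ i₀ → g i 0 = 0 := by
    intro i hi
    have h1 := hc' i
    simp only [hg', if_neg hi] at h1
    rwa [h0] at h1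
  obtain ⟨c, hc⟩ := core2 hP i₀ g hg G hgG hcard
  by_cases hi : i = i₀
  · obtain ⟨k, hk⟩ : ∃ k : Fin n, k ≠ i₀ := by
      have hn := hP.two_le
      haveI : Nontrivial (Fin n) := Fin.nontrivial_iff_two_le.mpr hn
      exact exists_ne i₀
    have h1 := hne k hk
    have h2 := hc k
    have h3 : c = 0 := (g k).injective (h2.trans h1.symm)
    have h4 := hc i
    rwa [h3] at h4
  · exact hne i hi

/-- if all the isometries fix the centre then the centre is on the boundary of every piece. -/
theorem frontier_of_fix {n : ℕ} {P : Fin n → Set ℂ} (hP : CongruentDissection (closedBall 0 1) n P)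
    (i₀ : Fin n) (g : Fin n → Iso) (hg : ∀ i, g i '' P i₀ = P i) (h0 : ∀ i, g i 0 = 0) (i : Fin n) :
    (0 : ℂ) ∈ frontier (P i) := by
  have hmem0 : (0 : ℂ) ∈ P i₀ := by
    have h1 : (0 : ℂ) ∈ ⋃ i, P i := by
      rw [hP.cover]
      exact mem_closedBall_self zero_le_one
    obtain ⟨j, hj⟩ := Set.mem_iUnion.mp h1
    rw [← hg j] at hj
    obtain ⟨x, hx, hx0⟩ := hj
    have h2 : x = 0 := (g j).injective (hx0.trans (h0 j).symm)
    rwa [h2] at hx
  have hmem : ∀ j, (0 : ℂ) ∈ P j := by
    intro j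
    rw [← hg j]
    exact ⟨0, hmem0, h0 j⟩
  rw [frontier, (hP.isCompact i).isClosed.closure_eq]
  refine ⟨hmem i, fun hint => ?_⟩
  -- then `0` is in the interior of all pieces
  obtain ⟨k, hk⟩ : ∃ k : Fin n, k ≠ i := by
    have hn := hP.two_le
    haveI : Nontrivial (Fin n) := Fin.nontrivial_iff_two_le.mpr hn
    exact exists_ne i
  have hcl : (0 : ℂ) ∈ closure (interior (P k)) := by
    rw [hP.closure_interior]
    exact hmem k
  obtain ⟨x, hx1, hx2⟩ := mem_closure_iff.mp hcl (interior (P i)) isOpen_interior hint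
  exact Set.disjoint_left.mp (hP.disjoint i k hk.symm) hx1 hx2

end Pool.Agent.helper11.Disk
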