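import Pool.Agent.helper11.Disk.Transl
import Pool.Agent.helper11.Disk.Cyc

/-!
# The jump function on the product of the point group and `Z/p`; the cyclic case
-/

set_option autoImplicit false
set_option linter.unusedSectionVars false
set_option linter.style.haveILetI false
set_option linter.unusedVariables false

open Set Filter Topology MeasureTheory Metric
open scoped ENNReal NNReal
open Pool.Agent.helper15.Hexagon

noncomputable section

namespace Pool.Agent.helper11.Disk

/-- the projection of the jump function to `G × Z/p` -/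
theorem exists_first {n : ℕ} {P : Fin n → Set ℂ} (hP : CongruentDissection (closedBall 0 1) n P)
    (i₀ : Fin n) (h : Fin n → Iso) (hh : ∀ i, h i '' P i₀ = P i) (G : Subgroup LIso) [Finite G]
    (B : AddSubgroup ℂ) [Countable B] (hGB : ∀ A ∈ G, ∀ x ∈ B, A x ∈ B) (hA : ∀ i, lin (h i) ∈ G)
    (hb : ∀ i, h i 0 ∈ B) {p : ℕ} (χ : B →+ ZMod p)
    (hχ : ∀ (A : LIso) (hA : A ∈ G) (x : ℂ) (hx : x ∈ B), χ ⟨A x, hGB A hA x hx⟩ = χ ⟨x, hx⟩) :
    ∃ J : G → ZMod p → ℤ, ∀ y s, ∑ i, J ((⟨lin (h i), hA i⟩ : G)⁻¹ * y) (s - χ ⟨h i 0, hb i⟩) =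
      if s = 0 then 1 else 0 := by
  classical
  set Γ := affG G B hGB with hΓ
  have hcount : Countable Γ := by
    have hinj : Function.Injective (fun γ : Γ => ((⟨lin γ, γ.2.1⟩ : G), (⟨(γ : Iso) 0, γ.2.2⟩ : B))) := by
      intro γ δ hγδ
      rw [Prod.mk.injEq, Subtype.mk.injEq, Subtype.mk.injEq] at hγδ
      exact Subtype.ext (iso_ext hγδ.1 hγδ.2)
    exact hinj.countable
  set K : Set Γ := {γ : Γ | (γ : Iso) 0 = 0} with hKdef
  let e : G → Γ := fun A => ⟨(A : LIso).toAffineIsometryEquiv, by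
    refine ⟨?_, ?_⟩
    · show lin (A : LIso).toAffineIsometryEquiv ∈ G
      unfold lin
      rw [LinearIsometryEquiv.toAffineIsometryEquiv_linearIsometryEquiv]
      exact A.2
    · show (A : LIso).toAffineIsometryEquiv 0 ∈ B
      rw [LinearIsometryEquiv.coe_toAffineIsometryEquiv, map_zero]
      exact B.zero_mem⟩
  have he0 : ∀ A : G, ((e A : Γ) : Iso) 0 = 0 := by
    intro A
    show (A : LIso).toAffineIsometryEquiv 0 = 0
    rw [LinearIsometryEquiv.coe_toAffineIsometryEquiv, map_zero]
  have hel : ∀ A : G, lin ((e A : Γ) : Iso) = A := by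
    intro A
    show lin (A : LIso).toAffineIsometryEquiv = A
    unfold lin
    rw [LinearIsometryEquiv.toAffineIsometryEquiv_linearIsometryEquiv]
  have hKinj : Function.Injective (fun γ : K => (⟨lin (γ : Γ), (γ : Γ).2.1⟩ : G)) := by
    intro γ δ hγδ
    rw [Subtype.mk.injEq] at hγδ
    apply Subtype.ext
    apply Subtype.ext
    apply iso_ext hγδ
    have h1 : ((γ : Γ) : Iso) 0 = 0 := γ.2
    have h2 : ((δ : Γ) : Iso) 0 = 0 := δ.2
    rw [h1, h2]
  haveI hKF : Finite K := Finite.of_injective _ hKinj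
  have hKfin : K.Finite := Set.toFinite K
  let g : Fin n → Γ := fun i => ⟨h i, hA i, hb i⟩
  obtain ⟨j, hj⟩ := exists_jump hP i₀ Γ hKfin g hh
  have h1 := jump_eq hKfin hj
  set Θ : Γ → G × ZMod p := fun γ => (⟨lin γ, γ.2.1⟩, χ ⟨(γ : Iso) 0, γ.2.2⟩) with hΘ
  refine ⟨fun y s => Finsupp.mapDomain Θ j (y, s), fun y s => ?_⟩
  have h2 := DFunLike.congr_fun (congrArg (Finsupp.mapDomain Θ) h1) (y, s)
  rw [Finsupp.mapDomain_finsetSum, Finsupp.mapDomain_finsetSum, Finsupp.finsetSum_apply, Finsupp.finsetSum_apply] at h2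
  have h3 : ∀ i, Finsupp.mapDomain Θ (Finsupp.mapDomain (fun γ => g i * γ) j) (y, s) =
      Finsupp.mapDomain Θ j ((⟨lin (h i), hA i⟩ : G)⁻¹ * y, s - χ ⟨h i 0, hb i⟩) := by
    intro i
    set Ri : G × ZMod p → G × ZMod p := fun x => ((⟨lin (h i), hA i⟩ : G) * x.1, x.2 + χ ⟨h i 0, hb i⟩) with hRi
    have hRinj : Function.Injective Ri := by
      intro x x' hx
      rw [hRi] at hx
      simp only [Prod.mk.injEq] at hx
      exact Prod.ext (mul_left_cancel hx.1) (add_right_cancel hx.2)
    have h4 : (Θ ∘ fun γ => g i * γ) = Ri ∘ Θ := by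
      funext γ
      apply Prod.ext
      · apply Subtype.ext
        show lin (h i * (γ : Iso)) = lin (h i) * lin (γ : Iso)
        exact lin_mul _ _
      · show χ ⟨(h i * (γ : Iso)) 0, _⟩ = χ ⟨(γ : Iso) 0, _⟩ + χ ⟨h i 0, _⟩
        rw [← hχ (lin (h i)) (hA i) ((γ : Iso) 0) γ.2.2, ← map_add]
        congr 1
        apply Subtype.ext
        show (h i) ((γ : Iso) 0) = lin (h i) ((γ : Iso) 0) + h i 0
        exact iso_apply _ _
    rw [← Finsupp.mapDomain_comp, h4, Finsupp.mapDomain_comp]
    have h5 : (y, s) = Ri ((⟨lin (h i), hA i⟩ : G)⁻¹ * y, s - χ ⟨h i 0, hb i⟩) := by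
      rw [hRi]
      simp only [mul_inv_cancel_left, sub_add_cancel]
    conv_lhs => rw [h5]
    exact Finsupp.mapDomain_apply hRinj _ _
  rw [Finset.sum_congr rfl fun i _ => h3 i] at h2
  rw [h2]
  have h6 : ∀ κ ∈ hKfin.toFinset, Finsupp.mapDomain Θ (Finsupp.single κ (1 : ℤ)) (y, s) =
      if Θ κ = (y, s) then 1 else 0 := by
    intro κ _
    rw [Finsupp.mapDomain_single, Finsupp.single_apply]
  rw [Finset.sum_congr rfl h6]
  have hΘK : ∀ κ ∈ hKfin.toFinset, (Θ κ).2 = 0 := by
    intro κ hκ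
    rw [Set.Finite.mem_toFinset] at hκ
    have h7 : (κ : Iso) 0 = 0 := hκ
    show χ ⟨(κ : Iso) 0, κ.2.2⟩ = 0
    have h8 : (⟨(κ : Iso) 0, κ.2.2⟩ : B) = 0 := Subtype.ext h7
    rw [h8, map_zero]
  split_ifs with hs
  · subst hs
    rw [Finset.sum_eq_single (e y)]
    · rw [if_pos]
      apply Prod.ext
      · apply Subtype.ext
        exact hel y
      · apply hΘK
        rw [Set.Finite.mem_toFinset]
        exact he0 y
    · intro κ hκ hne
      rw [if_neg]
      intro h7
      apply hne
      apply Subtype.ext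
      apply iso_ext
      · rw [hel]
        exact congrArg (fun x : G × ZMod p => ((x.1 : G) : LIso)) h7
      · rw [Set.Finite.mem_toFinset] at hκ
        rw [he0]
        exact hκ
    · intro h7
      exfalso
      apply h7
      rw [Set.Finite.mem_toFinset]
      exact he0 y
  · apply Finset.sum_eq_zero
    intro κ hκ
    rw [if_neg]
    intro h7
    apply hs
    have h8 := congrArg Prod.snd h7
    rw [hΘK κ hκ] at h8
    exact h8.symm

/-- finite groups of rotations are cyclic. -/
theorem cyclic_of_rot (G : Subgroup LIso) [Finite G] (hrot : ∀ A ∈ G, ∃ a : Circle, A = rotation a) : IsCyclic G := by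
  let f : G →* ℂ :=
    { toFun := fun A => (A : LIso) 1
      map_one' := rfl
      map_mul' := by
        intro A A'
        obtain ⟨a, ha⟩ := hrot A A.2
        show (A : LIso) ((A' : LIso) 1) = (A : LIso) 1 * (A' : LIso) 1
        rw [ha, rotation_apply, rotation_apply, mul_one] }
  have hf : Function.Injective f := by
    intro A A' h
    obtain ⟨a, ha⟩ := hrot A A.2
    obtain ⟨a', ha'⟩ := hrot A' A'.2
    have h1 : (A : LIso) 1 = (A' : LIso) 1 := h
    rw [ha, ha', rotation_apply, rotation_apply, mul_one, mul_one] at h1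
    apply Subtype.ext
    rw [ha, ha', Subtype.ext h1]
  exact isCyclic_of_injective_ringHom f hf

/-- the cyclic case. -/
theorem rigid_cyc {n : ℕ} {G : Type} [Group G] [IsCyclic G] [Finite G] {p k : ℕ} [Fact p.Prime] (hG : Nat.card G = p ^ k)
    (a : Fin n → G) (c : Fin n → ZMod p) {J : G → ZMod p → ℤ}
    (hJ : ∀ y s, ∑ i, J ((a i)⁻¹ * y) (s - c i) = if s = 0 then 1 else 0) (i i' : Fin n) : c i = c i' := by
  classical
  letI : CommGroup G := IsCyclic.commGroup
  haveI : Fintype G := Fintype.ofFinite G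
  rw [Nat.card_eq_fintype_card] at hG
  set τ : G → ZMod p → ℤ := fun y s => ∑ i, if a i = y ∧ c i = s then 1 else 0 with hτ
  have hce : CE τ J := by
    intro y s
    rw [← hJ y s]
    have h1 : ∀ y' s', τ y' s' * J (y'⁻¹ * y) (s - s') =
        ∑ i, if a i = y' ∧ c i = s' then J (y'⁻¹ * y) (s - s') else 0 := by
      intro y' s'
      rw [hτ, Finset.sum_mul]
      apply Finset.sum_congr rfl
      intro i _
      split_ifs
      · rw [one_mul]
      · rw [zero_mul]
    have h2 : ∀ y', ∑ s', τ y' s' * J (y'⁻¹ * y) (s - s') =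
        ∑ i, if a i = y' then J (y'⁻¹ * y) (s - c i) else 0 := by
      intro y'
      rw [Finset.sum_congr rfl fun s' _ => h1 y' s', Finset.sum_comm]
      apply Finset.sum_congr rfl
      intro i _
      by_cases h3 : a i = y'
      · simp only [h3, true_and, if_true]
        rw [Finset.sum_ite_eq]
        simp
      · simp only [h3, false_and, if_false, Finset.sum_const_zero]
    rw [Finset.sum_congr rfl fun y' _ => h2 y', Finset.sum_comm]
    apply Finset.sum_congr rfl
    intro i _
    rw [Finset.sum_ite_eq]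
    simp
  obtain ⟨s₀, hs₀⟩ := cyc_main k G hG τ J (fun y s => Finset.sum_nonneg fun i _ => by split_ifs <;> norm_num) hce
  have h4 : ∀ i, c i = s₀ := by
    intro i
    apply hs₀ (a i) (c i)
    have h5 : 1 ≤ τ (a i) (c i) := by
      have h6 : (if a i = a i ∧ c i = c i then (1 : ℤ) else 0) ≤ τ (a i) (c i) :=
        Finset.single_le_sum (f := fun i' => if a i' = a i ∧ c i' = c i then (1 : ℤ) else 0)
          (fun i' _ => by split_ifs <;> norm_num) (Finset.mem_univ i)
      simpa using h6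
    omega
  rw [h4 i, h4 i']

end Pool.Agent.helper11.Disk
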