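import Pool.Agent.helper11.Disk.Alg

/-!
# Invariant characters of the translation module
-/

set_option autoImplicit false
set_option linter.unusedSectionVars false
set_option linter.style.haveILetI false

open Finset

noncomputable section

namespace Pool.Agent.helper11.Disk

variable {B : Type*} [AddCommGroup B] {G : Type*} [Group G] [DistribMulAction G B] {p : ℕ}

/-- the action of `G` on the characters -/
def ha (A : G) : (B →+ ZMod p) →+ (B →+ ZMod p) where
  toFun f := f.comp (DistribSMul.toAddMonoidHom B A⁻¹)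
  map_zero' := by ext x; rfl
  map_add' f g := by ext x; rfl

theorem ha_apply (A : G) (f : B →+ ZMod p) (x : B) : ha A f x = f (A⁻¹ • x) := rfl

theorem ha_one (f : B →+ ZMod p) : ha (1 : G) f = f := by
  ext x
  rw [ha_apply, inv_one, one_smul]

theorem ha_mul (A A' : G) (f : B →+ ZMod p) : ha (A * A') f = ha A (ha A' f) := by
  ext x
  rw [ha_apply, ha_apply, ha_apply, mul_inv_rev, mul_smul]

@[instance_reducible] def homAct : MulAction G (B →+ ZMod p) where
  smul A f := ha A f
  one_smul f := ha_one f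
  mul_smul A A' f := ha_mul A A' f

theorem p_nsmul (f : B →+ ZMod p) : p • f = 0 := by
  ext x
  rw [AddMonoidHom.nsmul_apply, nsmul_eq_mul, CharP.cast_eq_zero, zero_mul]
  rfl

theorem finite_hom [Module.Free ℤ B] [Module.Finite ℤ B] [Fact p.Prime] : Finite (B →+ ZMod p) := by
  have b := Module.Free.chooseBasis ℤ B
  refine Finite.of_injective (fun (f : B →+ ZMod p) (i : Module.Free.ChooseBasisIndex ℤ B) => f (b i)) ?_
  intro f g h
  have h1 : f.toIntLinearMap = g.toIntLinearMap := by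
    apply b.ext
    intro i
    exact congrFun h i
  ext x
  exact LinearMap.congr_fun h1 x

theorem exists_hom_basis {ι : Type*} (b : Module.Basis ι ℤ B) [Fact p.Prime] (i : ι) :
    ∃ f : B →+ ZMod p, f (b i) = 1 ∧ ∀ j, j ≠ i → f (b j) = 0 := by
  refine ⟨(Int.castAddHom (ZMod p)).comp (b.coord i).toAddMonoidHom, ?_, ?_⟩
  · show ((b.coord i (b i) : ℤ) : ZMod p) = 1
    simp
  · intro j hj
    show ((b.coord i (b j) : ℤ) : ZMod p) = 0
    simp [hj]

theorem exists_hom [Module.Free ℤ B] [Nontrivial B] [Fact p.Prime] : ∃ f : B →+ ZMod p, f ≠ 0 := by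
  have b := Module.Free.chooseBasis ℤ B
  obtain ⟨i⟩ := b.index_nonempty
  obtain ⟨f, hf, -⟩ := exists_hom_basis (p := p) b i
  refine ⟨f, fun h => ?_⟩
  rw [h] at hf
  exact zero_ne_one hf

theorem dvd_card {V : Type*} [AddGroup V] [Finite V] [hp : Fact p.Prime] {f : V} (h0 : f ≠ 0)
    (h1 : p • f = 0) : p ∣ Nat.card V := by
  have h2 := addOrderOf_eq_prime h1 h0
  rw [← h2]
  exact addOrderOf_dvd_natCard f

/-- a nonzero invariant character -/
theorem exists_inv [Finite G] (hG : IsPGroup p G) [Module.Free ℤ B] [Module.Finite ℤ B] [Nontrivial B]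
    [Fact p.Prime] : ∃ χ : B →+ ZMod p, χ ≠ 0 ∧ ∀ (A : G) (x : B), χ (A • x) = χ x := by
  letI : MulAction G (B →+ ZMod p) := homAct
  haveI : Finite (B →+ ZMod p) := finite_hom
  obtain ⟨f, hf⟩ := exists_hom (B := B) (p := p)
  have hcard : p ∣ Nat.card (B →+ ZMod p) := dvd_card hf (p_nsmul f)
  have h0 : (0 : B →+ ZMod p) ∈ MulAction.fixedPoints G (B →+ ZMod p) := by
    intro A
    exact map_zero (ha A)
  obtain ⟨χ, hχ, hne⟩ := hG.exists_fixed_point_of_prime_dvd_card_of_fixed_point _ hcard h0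
  refine ⟨χ, hne.symm, fun A x => ?_⟩
  have h1 : ha A⁻¹ χ = χ := hχ A⁻¹
  have h2 := DFunLike.congr_fun h1 x
  rw [ha_apply, inv_inv] at h2
  exact h2

theorem mem_zm {χ f : B →+ ZMod 2} (h : f ∈ AddSubgroup.zmultiples χ) : f = 0 ∨ f = χ := by
  obtain ⟨k, hk⟩ := AddSubgroup.mem_zmultiples_iff.mp h
  have h2 : (2 : ℤ) • χ = 0 := by
    have := p_nsmul χ
    rw [← this]
    norm_cast
  rcases Int.even_or_odd k with ⟨m, hm⟩ | ⟨m, hm⟩
  · left
    rw [← hk, hm, ← two_mul, mul_comm, mul_smul, h2, smul_zero]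
  · right
    rw [← hk, hm, add_smul, mul_comm, mul_smul, h2, smul_zero, zero_add, one_smul]

/-- a second character, invariant up to `χ`. -/
theorem exists_second [Finite G] (hG : IsPGroup 2 G) [Module.Free ℤ B] [Module.Finite ℤ B]
    {χ : B →+ ZMod 2} (hχ : ∀ (A : G) (x : B), χ (A • x) = χ x)
    (hg : ∃ g : B →+ ZMod 2, g ≠ 0 ∧ g ≠ χ) :
    ∃ f : B →+ ZMod 2, f ≠ 0 ∧ f ≠ χ ∧ ∀ A : G, (∀ x, f (A • x) = f x) ∨ ∀ x, f (A • x) = f x + χ x := by
  haveI : Finite (B →+ ZMod 2) := finite_hom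
  have hinv : ∀ A : G, ha A χ = χ := by
    intro A
    ext x
    rw [ha_apply, hχ]
  have hle : ∀ A : G, AddSubgroup.zmultiples χ ≤ (AddSubgroup.zmultiples χ).comap (ha A) := by
    intro A f hf
    rw [AddSubgroup.mem_comap]
    rcases mem_zm hf with h | h
    · rw [h, map_zero]; exact zero_mem _
    · rw [h, hinv]; exact AddSubgroup.mem_zmultiples χ
  letI act : MulAction G ((B →+ ZMod 2) ⧸ AddSubgroup.zmultiples χ) :=
    { smul := fun A => QuotientAddGroup.map _ _ (ha A) (hle A)
      one_smul := by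
        intro q
        induction q using QuotientAddGroup.induction_on with
        | H f =>
          show ((ha (1 : G) f : B →+ ZMod 2) : (B →+ ZMod 2) ⧸ AddSubgroup.zmultiples χ) = f
          rw [ha_one]
      mul_smul := by
        intro A A' q
        induction q using QuotientAddGroup.induction_on with
        | H f =>
          show ((ha (A * A') f : B →+ ZMod 2) : (B →+ ZMod 2) ⧸ AddSubgroup.zmultiples χ) =
            ((ha A (ha A' f) : B →+ ZMod 2) : (B →+ ZMod 2) ⧸ AddSubgroup.zmultiples χ)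
          rw [ha_mul] }
  obtain ⟨g, hg0, hgχ⟩ := hg
  have hgne : ((g : B →+ ZMod 2) : (B →+ ZMod 2) ⧸ AddSubgroup.zmultiples χ) ≠ 0 := by
    intro h
    rw [QuotientAddGroup.eq_zero_iff] at h
    rcases mem_zm h with h | h
    · exact hg0 h
    · exact hgχ h
  haveI : Fact (Nat.Prime 2) := ⟨Nat.prime_two⟩
  have hcard : 2 ∣ Nat.card ((B →+ ZMod 2) ⧸ AddSubgroup.zmultiples χ) := by
    apply dvd_card hgne
    rw [← QuotientAddGroup.mk_nsmul, p_nsmul]
    rfl
  have h0 : (0 : (B →+ ZMod 2) ⧸ AddSubgroup.zmultiples χ) ∈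
      MulAction.fixedPoints G ((B →+ ZMod 2) ⧸ AddSubgroup.zmultiples χ) := by
    intro A
    exact map_zero (QuotientAddGroup.map _ _ (ha A) (hle A))
  obtain ⟨b, hb, hne⟩ := hG.exists_fixed_point_of_prime_dvd_card_of_fixed_point _ hcard h0
  obtain ⟨f, rfl⟩ := QuotientAddGroup.mk_surjective b
  refine ⟨f, ?_, ?_, fun A => ?_⟩
  · intro h
    apply hne
    rw [h]
    rfl
  · intro h
    apply hne
    symm
    rw [QuotientAddGroup.eq_zero_iff, h]
    exact AddSubgroup.mem_zmultiples χ
  · have h1 : ((ha A⁻¹ f : B →+ ZMod 2) : (B →+ ZMod 2) ⧸ AddSubgroup.zmultiples χ) = f := hb A⁻¹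
    have h2 := QuotientAddGroup.eq.mp h1.symm
    rcases mem_zm h2 with h | h
    · left
      intro x
      have h3 := DFunLike.congr_fun h x
      rw [AddMonoidHom.add_apply, AddMonoidHom.neg_apply, ha_apply, inv_inv, AddMonoidHom.zero_apply] at h3
      rw [neg_add_eq_zero] at h3
      exact h3.symm
    · right
      intro x
      have h3 := DFunLike.congr_fun h x
      rw [AddMonoidHom.add_apply, AddMonoidHom.neg_apply, ha_apply, inv_inv] at h3
      rw [← h3]
      abel

end Pool.Agent.helper11.Disk
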