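import Pool.Agent.helper11.Disk.Arc

/-!
# The jump of the indicator function of a piece along a ray

Let the disk `D` be dissected into the pieces `g i '' P`. For a generic direction `u` and an
isometry `γ` of a countable group `Γ ∋ g i` with finite stabiliser of the centre let `j γ` be the
jump of the indicator function of `P` at `r = 1` along `r ↦ γ (r u)`. It has finite support and
`∑ i, j ((g i)⁻¹ γ) = 1` if `γ` fixes the centre and `0` otherwise.
-/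

set_option autoImplicit false

open Set Filter Topology MeasureTheory Metric
open scoped ENNReal NNReal
open Pool.Agent.helper15.Hexagon

noncomputable section

namespace Pool.Agent.helper11.Disk

open Classical in
/-- the indicator function -/
def ind (P : Set ℂ) (x : ℂ) : ℤ := if x ∈ P then 1 else 0

open Classical in
/-- the value of the indicator function of `P` along `ρ` near the filter `F`. -/
def jf (F : Filter ℝ) (P : Set ℂ) (ρ : ℝ → ℂ) : ℤ := if ∀ᶠ r in F, ρ r ∈ P then 1 else 0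

/-- the indicator function of `P` along `ρ` is eventually constant. -/
def Dich (F : Filter ℝ) (P : Set ℂ) (ρ : ℝ → ℂ) : Prop :=
  (∀ᶠ r in F, ρ r ∈ P) ∨ ∀ᶠ r in F, ρ r ∉ P

theorem ev_ind {F : Filter ℝ} [F.NeBot] {P : Set ℂ} {ρ : ℝ → ℂ} (h : Dich F P ρ) :
    ∀ᶠ r in F, ind P (ρ r) = jf F P ρ := by
  unfold jf ind
  rcases h with h | h
  · rw [if_pos h]
    filter_upwards [h] with r hr
    rw [if_pos hr]
  · have h2 : ¬ ∀ᶠ r in F, ρ r ∈ P := by
      intro h3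
      obtain ⟨r, h4, h5⟩ := (h.and h3).exists
      exact h4 h5
    rw [if_neg h2]
    filter_upwards [h] with r hr
    rw [if_neg hr]

theorem dich_of_conn {P : Set ℂ} {ρ : ℝ → ℂ} {J : Set ℝ} (hρ : Continuous ρ) (hJ : IsPreconnected J)
    (hf : ∀ r ∈ J, ρ r ∉ frontier P) : (∀ r ∈ J, ρ r ∈ P) ∨ ∀ r ∈ J, ρ r ∉ P := by
  by_contra hcon
  push Not at hcon
  obtain ⟨⟨r₁, h1, h2⟩, r₂, h3, h4⟩ := hcon
  have hcov : J ⊆ ρ ⁻¹' (interior P) ∪ ρ ⁻¹' (interior Pᶜ) := by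
    intro r hr
    have h5 := hf r hr
    rw [frontier_eq_closure_inter_closure] at h5
    by_cases h6 : ρ r ∈ closure P
    · left
      have h7 : ρ r ∉ closure Pᶜ := fun h => h5 ⟨h6, h⟩
      rw [closure_compl, mem_compl_iff, not_not] at h7
      exact h7
    · right
      show ρ r ∈ interior Pᶜ
      rw [interior_compl]
      exact h6
  have hu := hJ _ _ (isOpen_interior.preimage hρ) (isOpen_interior.preimage hρ) hcov
  have h5 : (J ∩ ρ ⁻¹' (interior P)).Nonempty := by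
    refine ⟨r₂, h3, ?_⟩
    rcases hcov h3 with h | h
    · exact h
    · exact absurd h4 (interior_subset h)
  have h6 : (J ∩ ρ ⁻¹' (interior Pᶜ)).Nonempty := by
    refine ⟨r₁, h1, ?_⟩
    rcases hcov h1 with h | h
    · exact absurd (interior_subset h) h2
    · exact h
  obtain ⟨r, -, h7, h8⟩ := hu h5 h6
  exact (interior_subset h8) (interior_subset h7)

theorem dich_left {P : Set ℂ} {ρ : ℝ → ℂ} (hρ : Continuous ρ)
    (hf : ∀ᶠ r in 𝓝[≠] (1 : ℝ), ρ r ∉ frontier P) : Dich (𝓝[<] (1 : ℝ)) P ρ := by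
  have h1 : {r | ρ r ∉ frontier P} ∈ 𝓝[<] (1 : ℝ) :=
    nhdsWithin_mono _ (fun x hx => ne_of_lt hx) hf
  obtain ⟨l, hl, h2⟩ := mem_nhdsLT_iff_exists_Ioo_subset.mp h1
  rcases dich_of_conn hρ isPreconnected_Ioo h2 with h | h
  · left; exact mem_of_superset (Ioo_mem_nhdsLT hl) h
  · right; exact mem_of_superset (Ioo_mem_nhdsLT hl) h

theorem dich_right {P : Set ℂ} {ρ : ℝ → ℂ} (hρ : Continuous ρ)
    (hf : ∀ᶠ r in 𝓝[≠] (1 : ℝ), ρ r ∉ frontier P) : Dich (𝓝[>] (1 : ℝ)) P ρ := by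
  have h1 : {r | ρ r ∉ frontier P} ∈ 𝓝[>] (1 : ℝ) :=
    nhdsWithin_mono _ (fun x hx => (ne_of_lt hx).symm) hf
  obtain ⟨l, hl, h2⟩ := mem_nhdsGT_iff_exists_Ioo_subset.mp h1
  rcases dich_of_conn hρ isPreconnected_Ioo h2 with h | h
  · left; exact mem_of_superset (Ioo_mem_nhdsGT hl) h
  · right; exact mem_of_superset (Ioo_mem_nhdsGT hl) h

/-- the jump -/
def jump (P : Set ℂ) (ρ : ℝ → ℂ) : ℤ := jf (𝓝[<] (1 : ℝ)) P ρ - jf (𝓝[>] (1 : ℝ)) P ρ

theorem jump_off {P : Set ℂ} {ρ : ℝ → ℂ} (hρ : Continuous ρ) (h : ρ 1 ∉ frontier P) :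
    jump P ρ = 0 := by
  have h1 : (∀ᶠ r in 𝓝 (1 : ℝ), ρ r ∈ P) ∨ ∀ᶠ r in 𝓝 (1 : ℝ), ρ r ∉ P := by
    rw [frontier_eq_closure_inter_closure] at h
    by_cases h6 : ρ 1 ∈ closure P
    · left
      have h7 : ρ 1 ∉ closure Pᶜ := fun h' => h ⟨h6, h'⟩
      rw [closure_compl, mem_compl_iff, not_not] at h7
      exact (hρ.continuousAt.eventually (isOpen_interior.mem_nhds h7)).mono fun r hr =>
        interior_subset hr
    · right
      have h7 : ρ 1 ∈ interior Pᶜ := by rw [interior_compl]; exact h6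
      exact (hρ.continuousAt.eventually (isOpen_interior.mem_nhds h7)).mono fun r hr =>
        interior_subset hr
  unfold jump jf
  rcases h1 with h1 | h1
  · rw [if_pos (h1.filter_mono nhdsWithin_le_nhds), if_pos (h1.filter_mono nhdsWithin_le_nhds),
      sub_self]
  · have h2 : ∀ F : Filter ℝ, F.NeBot → F ≤ 𝓝 (1 : ℝ) → ¬ ∀ᶠ r in F, ρ r ∈ P := by
      intro F hF hle h3
      obtain ⟨r, h4, h5⟩ := ((h1.filter_mono hle).and h3).exists
      exact h4 h5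
    rw [if_neg (h2 _ inferInstance nhdsWithin_le_nhds), if_neg (h2 _ inferInstance nhdsWithin_le_nhds),
      sub_self]

/-- the pointwise identity -/
theorem ind_sum {D : Set ℂ} {n : ℕ} {P : Fin n → Set ℂ} (hP : CongruentDissection D n P) {x : ℂ}
    (hx : ∀ i, x ∉ frontier (P i)) : ∑ i, ind (P i) x = ind D x := by
  have hint : ∀ i, x ∈ P i → x ∈ interior (P i) := by
    intro i hi
    by_contra h
    exact hx i ⟨subset_closure hi, h⟩
  by_cases hD : x ∈ D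
  · have h1 : x ∈ ⋃ i, P i := by rw [hP.cover]; exact hD
    obtain ⟨i, hi⟩ := mem_iUnion.mp h1
    rw [Finset.sum_eq_single i]
    · unfold ind
      rw [if_pos hi, if_pos hD]
    · intro j _ hj
      unfold ind
      rw [if_neg]
      intro hxj
      exact Set.disjoint_left.mp (hP.disjoint j i hj) (hint j hxj) (hint i hi)
    · intro h
      exact absurd (Finset.mem_univ i) h
  · have h1 : ∀ i, x ∉ P i := by
      intro i hi
      apply hD
      rw [← hP.cover]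
      exact mem_iUnion.mpr ⟨i, hi⟩
    unfold ind
    rw [if_neg hD]
    exact Finset.sum_eq_zero fun i _ => if_neg (h1 i)

theorem jf_sum {F : Filter ℝ} [F.NeBot] {D : Set ℂ} {n : ℕ} {P : Fin n → Set ℂ}
    (hP : CongruentDissection D n P) {ρ : ℝ → ℂ} (hf : ∀ i, ∀ᶠ r in F, ρ r ∉ frontier (P i))
    (hd : ∀ i, Dich F (P i) ρ) (hD : Dich F D ρ) : ∑ i, jf F (P i) ρ = jf F D ρ := by
  have h1 : ∀ᶠ r in F, ∀ i, ρ r ∉ frontier (P i) := eventually_all.mpr hf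
  have h2 : ∀ᶠ r in F, ∀ i, ind (P i) (ρ r) = jf F (P i) ρ := eventually_all.mpr fun i => ev_ind (hd i)
  obtain ⟨r, h3, h4, h5⟩ := (h1.and (h2.and (ev_ind hD))).exists
  rw [← h5, ← ind_sum hP h3]
  exact Finset.sum_congr rfl fun i _ => (h4 i).symm

theorem jump_sum {D : Set ℂ} {n : ℕ} {P : Fin n → Set ℂ} (hP : CongruentDissection D n P) {ρ : ℝ → ℂ}
    (hρ : Continuous ρ) (hf : ∀ i, ∀ᶠ r in 𝓝[≠] (1 : ℝ), ρ r ∉ frontier (P i))
    (hD1 : Dich (𝓝[<] (1 : ℝ)) D ρ) (hD2 : Dich (𝓝[>] (1 : ℝ)) D ρ) :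
    ∑ i, jump (P i) ρ = jump D ρ := by
  have e1 := jf_sum (F := 𝓝[<] (1 : ℝ)) hP
    (fun i => (hf i).filter_mono (nhdsWithin_mono _ fun x hx => ne_of_lt hx))
    (fun i => dich_left hρ (hf i)) hD1
  have e2 := jf_sum (F := 𝓝[>] (1 : ℝ)) hP
    (fun i => (hf i).filter_mono (nhdsWithin_mono _ fun x hx => (ne_of_lt hx).symm))
    (fun i => dich_right hρ (hf i)) hD2
  unfold jump
  rw [Finset.sum_sub_distrib, e1, e2]

/-- the path of the isometry `γ` and the direction `u` -/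
def pth (γ : Iso) (u : ℂ) (r : ℝ) : ℂ := γ ((r : ℂ) * u)

theorem pth_cont (γ : Iso) (u : ℂ) : Continuous (pth γ u) := by
  unfold pth
  exact γ.continuous.comp (by fun_prop)

theorem pth_one (γ : Iso) (u : ℂ) : pth γ u 1 = γ u := by
  unfold pth
  simp

theorem pth_mul (g γ : Iso) (u : ℂ) (r : ℝ) : pth (g⁻¹ * γ) u r = g⁻¹ (pth γ u r) := rfl

theorem jump_image (g γ : Iso) (u : ℂ) (P : Set ℂ) : jump (g '' P) (pth γ u) = jump P (pth (g⁻¹ * γ) u) := by
  have h1 : ∀ r, pth γ u r ∈ g '' P ↔ pth (g⁻¹ * γ) u r ∈ P := by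
    intro r
    rw [pth_mul]
    constructor
    · rintro ⟨x, hx, hxe⟩
      rw [← hxe, AffineIsometryEquiv.coe_inv, AffineIsometryEquiv.symm_apply_apply]
      exact hx
    · intro h
      exact ⟨_, h, by rw [AffineIsometryEquiv.coe_inv, AffineIsometryEquiv.apply_symm_apply]⟩
  have h2 : ∀ F : Filter ℝ, jf F (g '' P) (pth γ u) = jf F P (pth (g⁻¹ * γ) u) := by
    intro F
    classical
    unfold jf
    exact if_congr (eventually_congr (Eventually.of_forall h1)) rfl rfl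
  unfold jump
  rw [h2, h2]

/-- the norm along the path if the centre is fixed -/
theorem norm_pth_fix {γ : Iso} (h : γ 0 = 0) {u : ℂ} (hu : ‖u‖ = 1) {r : ℝ} (hr : 0 ≤ r) :
    ‖pth γ u r‖ = r := by
  have h1 : dist (γ ((r : ℂ) * u)) (γ 0) = dist ((r : ℂ) * u) 0 := γ.isometry.dist_eq _ _
  rw [h, dist_zero_right, dist_zero_right, norm_mul, hu, mul_one, Complex.norm_real,
    Real.norm_of_nonneg hr] at h1
  exact h1

theorem pos_left : ∀ᶠ r in 𝓝[<] (1 : ℝ), 0 < r ∧ r < 1 := by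
  have : Ioo (0 : ℝ) 1 ∈ 𝓝[<] (1 : ℝ) := Ioo_mem_nhdsLT zero_lt_one
  exact this

theorem pos_right : ∀ᶠ r in 𝓝[>] (1 : ℝ), 1 < r := self_mem_nhdsWithin

theorem disk_fix {γ : Iso} (h : γ 0 = 0) {u : ℂ} (hu : ‖u‖ = 1) :
    Dich (𝓝[<] (1 : ℝ)) (closedBall 0 1) (pth γ u) ∧ Dich (𝓝[>] (1 : ℝ)) (closedBall 0 1) (pth γ u) ∧
      jump (closedBall 0 1) (pth γ u) = 1 := by
  have h1 : ∀ᶠ r in 𝓝[<] (1 : ℝ), pth γ u r ∈ closedBall (0 : ℂ) 1 := by
    filter_upwards [pos_left] with r hr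
    rw [mem_closedBall_zero_iff, norm_pth_fix h hu hr.1.le]
    exact hr.2.le
  have h2 : ∀ᶠ r in 𝓝[>] (1 : ℝ), pth γ u r ∉ closedBall (0 : ℂ) 1 := by
    filter_upwards [pos_right] with r hr
    rw [mem_closedBall_zero_iff, norm_pth_fix h hu (by linarith)]
    linarith
  refine ⟨Or.inl h1, Or.inr h2, ?_⟩
  unfold jump jf
  rw [if_pos h1, if_neg]
  · norm_num
  · intro h3
    obtain ⟨r, h4, h5⟩ := (h2.and h3).exists
    exact h4 h5

theorem disk_off {γ : Iso} {u : ℂ} (hu : ‖γ u‖ ≠ 1) :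
    Dich (𝓝[<] (1 : ℝ)) (closedBall 0 1) (pth γ u) ∧ Dich (𝓝[>] (1 : ℝ)) (closedBall 0 1) (pth γ u) ∧
      jump (closedBall 0 1) (pth γ u) = 0 := by
  have h1 : (∀ᶠ r in 𝓝 (1 : ℝ), pth γ u r ∈ closedBall (0 : ℂ) 1) ∨
      ∀ᶠ r in 𝓝 (1 : ℝ), pth γ u r ∉ closedBall (0 : ℂ) 1 := by
    have hc : ContinuousAt (fun r => ‖pth γ u r‖) 1 := (pth_cont γ u).norm.continuousAt
    rcases lt_or_gt_of_ne hu with h | h
    · left
      have h2 : ∀ᶠ r in 𝓝 (1 : ℝ), ‖pth γ u r‖ < 1 := by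
        apply hc.eventually (gt_mem_nhds _)
        show ‖pth γ u 1‖ < 1
        rw [pth_one]; exact h
      filter_upwards [h2] with r hr
      rw [mem_closedBall_zero_iff]; exact hr.le
    · right
      have h2 : ∀ᶠ r in 𝓝 (1 : ℝ), 1 < ‖pth γ u r‖ := by
        apply hc.eventually (lt_mem_nhds _)
        show 1 < ‖pth γ u 1‖
        rw [pth_one]; exact h
      filter_upwards [h2] with r hr
      rw [mem_closedBall_zero_iff]; linarith
  refine ⟨?_, ?_, ?_⟩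
  · exact h1.imp (fun h => h.filter_mono nhdsWithin_le_nhds) (fun h => h.filter_mono nhdsWithin_le_nhds)
  · exact h1.imp (fun h => h.filter_mono nhdsWithin_le_nhds) (fun h => h.filter_mono nhdsWithin_le_nhds)
  · apply jump_off (pth_cont γ u)
    rw [pth_one, frontier_closedBall _ one_ne_zero, mem_sphere_zero_iff_norm]
    exact hu

/-- THE JUMP FUNCTION. -/
theorem exists_jump {n : ℕ} {P : Fin n → Set ℂ} (hP : CongruentDissection (closedBall 0 1) n P)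
    (i₀ : Fin n) (Γ : Subgroup Iso) [Countable Γ] (hK : {γ : Γ | (γ : Iso) 0 = 0}.Finite)
    (g : Fin n → Γ) (hg : ∀ i, (g i : Iso) '' P i₀ = P i) :
    ∃ j : Γ →₀ ℤ, ∀ γ : Γ, ∑ i, j ((g i)⁻¹ * γ) = ind {x | x = 0} ((γ : Iso) 0) := by
  classical
  have hS : MeasurableSet (frontier (P i₀)) := isClosed_frontier.measurableSet
  have hlen : μH[1] (frontier (P i₀)) ≠ ∞ := boundary_len (hP.boundary i₀)
  -- a good direction
  have h1 : ∀ᵐ τ : ℝ, τ ∈ Icc (0 : ℝ) 1 → ∀ γ : Γ, ∀ᶠ r : ℝ in 𝓝[≠] (1 : ℝ),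
      (γ : Iso) ((r : ℂ) * uu τ) ∉ frontier (P i₀) := by
    have h2 : ∀ γ : Γ, ∀ᵐ τ : ℝ, τ ∈ Icc (0 : ℝ) 1 → ∀ᶠ r : ℝ in 𝓝[≠] (1 : ℝ),
        (r : ℂ) * uu τ ∉ (γ : Iso).toIsometryEquiv ⁻¹' frontier (P i₀) := by
      intro γ
      apply ae_ray
      · exact (γ : Iso).continuous.measurable hS
      · rw [IsometryEquiv.hausdorffMeasure_preimage]; exact hlen
    filter_upwards [ae_all_iff.mpr h2] with τ hτ hI γ
    exact hτ γ hI
  have hpos : volume (Icc (0 : ℝ) 1) ≠ 0 := by rw [Real.volume_Icc]; simp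
  obtain ⟨τ, hτ, hgood⟩ : ∃ τ ∈ Icc (0 : ℝ) 1,
      (∀ γ : Γ, ∀ᶠ r : ℝ in 𝓝[≠] (1 : ℝ), (γ : Iso) ((r : ℂ) * uu τ) ∉ frontier (P i₀)) ∧
      (∀ γ : Γ, (γ : Iso) 0 ≠ 0 → ‖(γ : Iso) (uu τ)‖ ≠ 1) ∧
      {γ : Γ | (γ : Iso) (uu τ) ∈ frontier (P i₀)}.Finite := by
    by_contra hcon
    push Not at hcon
    apply hpos
    have h3 : ∀ᵐ τ : ℝ, τ ∉ Icc (0 : ℝ) 1 := by
      filter_upwards [h1, ae_generic Γ, ae_fin Γ hK hS hlen] with τ ha hb hc hI
      exact hcon τ hI (ha hI) (hb hI) (hc hI)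
    refine measure_mono_null ?_ (ae_iff.mp h3)
    intro x hx h5
    exact h5 hx
  obtain ⟨hg1, hg2, hg3⟩ := hgood
  set u := uu τ with hu
  have hu1 : ‖u‖ = 1 := norm_uu τ
  have hfin : (Function.support (fun γ : Γ => jump (P i₀) (pth (γ : Iso) u))).Finite := by
    refine hg3.subset ?_
    intro γ hγ
    by_contra h
    apply hγ
    apply jump_off (pth_cont _ _)
    rw [pth_one]
    exact h
  refine ⟨Finsupp.ofSupportFinite _ hfin, fun γ => ?_⟩
  have h2 : ∀ i, (Finsupp.ofSupportFinite (fun γ : Γ => jump (P i₀) (pth (γ : Iso) u)) hfin)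
      ((g i)⁻¹ * γ) = jump (P i) (pth (γ : Iso) u) := by
    intro i
    rw [Finsupp.ofSupportFinite_coe, ← hg i, jump_image]
    rfl
  rw [Finset.sum_congr rfl fun i _ => h2 i]
  have hf : ∀ i, ∀ᶠ r in 𝓝[≠] (1 : ℝ), pth (γ : Iso) u r ∉ frontier (P i) := by
    intro i
    filter_upwards [hg1 ((g i)⁻¹ * γ)] with r hr h3
    apply hr
    rw [← hg i] at h3
    have h4 : (g i : Iso) '' frontier (P i₀) = frontier ((g i : Iso) '' P i₀) :=
      (g i : Iso).toHomeomorph.image_frontier _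
    rw [← h4] at h3
    obtain ⟨x, hx, hxe⟩ := h3
    have h5 : (((g i)⁻¹ * γ : Γ) : Iso) ((r : ℂ) * u) = x := by
      show (((g i : Iso))⁻¹ : Iso) (pth (γ : Iso) u r) = x
      rw [← hxe, AffineIsometryEquiv.coe_inv, AffineIsometryEquiv.symm_apply_apply]
    rw [h5]
    exact hx
  by_cases h0 : (γ : Iso) 0 = 0
  · obtain ⟨hD1, hD2, hD3⟩ := disk_fix h0 hu1
    rw [jump_sum hP (pth_cont _ _) hf hD1 hD2, hD3]
    unfold ind
    rw [if_pos]
    exact h0
  · obtain ⟨hD1, hD2, hD3⟩ := disk_off (hg2 γ h0)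
    rw [jump_sum hP (pth_cont _ _) hf hD1 hD2, hD3]
    unfold ind
    rw [if_neg]
    exact h0

end Pool.Agent.helper11.Disk
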