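import Mathlib

/-!
# Generic rays and a set of finite length

`uu τ` is the unit vector of slope `τ`. For a set `S` of finite length almost every `τ ∈ [0, 1]` is
good: the ray of direction `uu τ` does not meet `S` near (but off) the unit circle.
-/

set_option autoImplicit false

open Set Filter Topology MeasureTheory Metric
open scoped ENNReal NNReal

noncomputable section

namespace Pool.Agent.helper11.Disk

/-- the slope -/
def sl (x : ℂ) : ℝ := x.im / x.re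

/-- the region where the slope is Lipschitz -/
def Reg : Set ℂ := {x | 1 / 4 ≤ x.re ∧ ‖x‖ ≤ 2}

/-- the unit vector of slope `τ` -/
def uu (τ : ℝ) : ℂ := ((‖(1 : ℂ) + τ * Complex.I‖⁻¹ : ℝ) : ℂ) * (1 + τ * Complex.I)

theorem sl_lip : LipschitzOnWith 64 sl Reg := by
  apply LipschitzOnWith.of_dist_le_mul
  intro x hx y hy
  obtain ⟨hx1, hx2⟩ := hx
  obtain ⟨hy1, hy2⟩ := hy
  have hxr : 0 < x.re := by linarith
  have hyr : 0 < y.re := by linarith
  rw [Real.dist_eq]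
  unfold sl
  rw [div_sub_div _ _ hxr.ne' hyr.ne', abs_div, abs_of_pos (mul_pos hxr hyr),
    div_le_iff₀ (mul_pos hxr hyr)]
  have h1 : x.im * y.re - x.re * y.im = x.im * (y.re - x.re) + x.re * (x.im - y.im) := by ring
  rw [h1]
  have hd1 : |y.re - x.re| ≤ dist x y := by
    rw [dist_eq_norm, abs_sub_comm]
    exact Complex.abs_re_le_norm (x - y)
  have hd2 : |x.im - y.im| ≤ dist x y := by
    rw [dist_eq_norm]
    exact Complex.abs_im_le_norm (x - y)
  have h2 : |x.im| ≤ 2 := (Complex.abs_im_le_norm x).trans hx2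
  have h3 : |x.re| ≤ 2 := (Complex.abs_re_le_norm x).trans hx2
  have hd0 : 0 ≤ dist x y := dist_nonneg
  calc |x.im * (y.re - x.re) + x.re * (x.im - y.im)|
      ≤ |x.im| * |y.re - x.re| + |x.re| * |x.im - y.im| := by
        rw [← abs_mul, ← abs_mul]; exact abs_add_le _ _
    _ ≤ 2 * dist x y + 2 * dist x y := by
        gcongr
    _ = 64 * dist x y * (1 / 16) := by ring
    _ ≤ 64 * dist x y * (x.re * y.re) := by
        gcongr
        nlinarith
    _ = ((64 : ℝ≥0) : ℝ) * dist x y * (x.re * y.re) := by norm_num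

theorem vol_image {T : Set ℂ} (hT : T ⊆ Reg) : volume (sl '' T) ≤ 64 * μH[1] T := by
  have h := (sl_lip.mono hT).hausdorffMeasure_image_le (d := 1) zero_le_one
  rw [hausdorffMeasure_real] at h
  simpa using h

theorem norm_ne (τ : ℝ) : ‖(1 : ℂ) + τ * Complex.I‖ ≠ 0 := by
  rw [norm_ne_zero_iff]
  intro h
  have := congrArg Complex.re h
  simp at this

theorem norm_uu (τ : ℝ) : ‖uu τ‖ = 1 := by
  unfold uu
  rw [norm_mul, Complex.norm_real, norm_inv, norm_norm, inv_mul_cancel₀ (norm_ne τ)]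

theorem uu_re (τ : ℝ) : (uu τ).re = ‖(1 : ℂ) + τ * Complex.I‖⁻¹ := by
  unfold uu
  rw [Complex.re_ofReal_mul]
  simp

theorem uu_im (τ : ℝ) : (uu τ).im = ‖(1 : ℂ) + τ * Complex.I‖⁻¹ * τ := by
  unfold uu
  rw [Complex.im_ofReal_mul]
  simp

theorem uu_re_ge {τ : ℝ} (hτ : τ ∈ Icc (0 : ℝ) 1) : 1 / 2 ≤ (uu τ).re := by
  rw [uu_re]
  have h1 : ‖(1 : ℂ) + τ * Complex.I‖ ≤ 2 := by
    calc ‖(1 : ℂ) + τ * Complex.I‖ ≤ ‖(1 : ℂ)‖ + ‖(τ : ℂ) * Complex.I‖ := norm_add_le _ _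
      _ = 1 + |τ| := by rw [norm_mul, Complex.norm_I, Complex.norm_real, mul_one, norm_one]; rfl
      _ ≤ 2 := by rw [abs_of_nonneg hτ.1]; linarith [hτ.2]
  have h2 : 0 < ‖(1 : ℂ) + τ * Complex.I‖ := lt_of_le_of_ne (norm_nonneg _) (norm_ne τ).symm
  rw [one_div]
  exact inv_anti₀ h2 h1

theorem sl_ray (τ r : ℝ) (hr : r ≠ 0) : sl ((r : ℂ) * uu τ) = τ := by
  unfold sl
  rw [Complex.re_ofReal_mul, Complex.im_ofReal_mul, uu_re, uu_im]
  have := norm_ne τ
  field_simp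

theorem ray_Reg {τ r : ℝ} (hτ : τ ∈ Icc (0 : ℝ) 1) (h1 : 1 / 2 ≤ r) (h2 : r ≤ 2) :
    (r : ℂ) * uu τ ∈ Reg := by
  constructor
  · rw [Complex.re_ofReal_mul]
    have := uu_re_ge hτ
    nlinarith
  · rw [norm_mul, norm_uu, mul_one, Complex.norm_real, Real.norm_of_nonneg (by linarith)]
    exact h2

/-- the annuli which shrink to the unit circle -/
def Ann (k : ℕ) : Set ℂ := {x | (1 / 2 : ℝ) ^ (k + 2) < |‖x‖ - 1| ∧ |‖x‖ - 1| ≤ (1 / 2 : ℝ) ^ (k + 1)}

theorem Ann_meas (k : ℕ) : MeasurableSet (Ann k) := by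
  have h1 : Measurable (fun x : ℂ => |‖x‖ - 1|) := by fun_prop
  exact (measurableSet_lt measurable_const h1).inter (measurableSet_le h1 measurable_const)

theorem Ann_disj : Pairwise (Function.onFun Disjoint Ann) := by
  intro i j hij
  rw [Function.onFun, Set.disjoint_left]
  rintro x ⟨h1, h2⟩ ⟨h3, h4⟩
  rcases lt_or_gt_of_ne hij with h | h
  · have h5 : (1 / 2 : ℝ) ^ (j + 1) ≤ (1 / 2 : ℝ) ^ (i + 2) :=
      pow_le_pow_of_le_one (by norm_num) (by norm_num) (by omega)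
    linarith
  · have h5 : (1 / 2 : ℝ) ^ (i + 1) ≤ (1 / 2 : ℝ) ^ (j + 2) :=
      pow_le_pow_of_le_one (by norm_num) (by norm_num) (by omega)
    linarith

/-- almost every ray avoids `S` near the unit circle (the point of the circle excluded). -/
theorem ae_ray {S : Set ℂ} (hS : MeasurableSet S) (hfin : μH[1] S ≠ ∞) :
    ∀ᵐ τ : ℝ, τ ∈ Icc (0 : ℝ) 1 → ∀ᶠ r : ℝ in 𝓝[≠] (1 : ℝ), (r : ℂ) * uu τ ∉ S := by
  have hsum : (∑' k, volume (sl '' (S ∩ Ann k ∩ Reg))) ≠ ∞ := by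
    have h1 : ∀ k, volume (sl '' (S ∩ Ann k ∩ Reg)) ≤ 64 * μH[1] (S ∩ Ann k) := fun k =>
      (vol_image inter_subset_right).trans (mul_le_mul_right (measure_mono inter_subset_left) _)
    have h2 : (∑' k, (64 : ℝ≥0∞) * μH[1] (S ∩ Ann k)) ≤ 64 * μH[1] S := by
      rw [ENNReal.tsum_mul_left]
      gcongr
      rw [← measure_iUnion]
      · exact measure_mono (iUnion_subset fun k => inter_subset_left)
      · intro i j hij
        exact (Ann_disj hij).mono inter_subset_right inter_subset_right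
      · intro k
        exact hS.inter (Ann_meas k)
    exact ne_top_of_le_ne_top (ENNReal.mul_ne_top (by simp) hfin)
      ((ENNReal.tsum_le_tsum h1).trans h2)
  filter_upwards [ae_eventually_notMem hsum] with τ hτ hI
  obtain ⟨k₀, hk₀⟩ := eventually_atTop.mp hτ
  rw [eventually_nhdsWithin_iff]
  have hε : (0 : ℝ) < (1 / 2 : ℝ) ^ (k₀ + 1) := by positivity
  have hball : Metric.ball (1 : ℝ) ((1 / 2 : ℝ) ^ (k₀ + 1)) ∈ 𝓝 (1 : ℝ) := Metric.ball_mem_nhds _ hε
  filter_upwards [hball] with r hr hr1 hrS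
  rw [Metric.mem_ball, Real.dist_eq] at hr
  have hr1' : r ≠ 1 := hr1
  have hpos : 0 < |r - 1| := abs_pos.mpr (sub_ne_zero.mpr hr1')
  have hle1 : |r - 1| ≤ 1 := by
    refine hr.le.trans (pow_le_one₀ (by norm_num) (by norm_num))
  obtain ⟨m, hm1, hm2⟩ := exists_nat_pow_near_of_lt_one hpos hle1 (by norm_num : (0 : ℝ) < 1 / 2)
    (by norm_num : (1 / 2 : ℝ) < 1)
  have hmk : k₀ + 1 ≤ m := by
    by_contra hcon
    push Not at hcon
    have : (1 / 2 : ℝ) ^ (k₀ + 1) ≤ (1 / 2 : ℝ) ^ (m + 1) :=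
      pow_le_pow_of_le_one (by norm_num) (by norm_num) (by omega)
    linarith
  obtain ⟨k, rfl⟩ : ∃ k, m = k + 1 := ⟨m - 1, by omega⟩
  apply hk₀ k (by omega)
  have hhalf : |r - 1| ≤ 1 / 2 := by
    refine hm2.trans ?_
    calc (1 / 2 : ℝ) ^ (k + 1) ≤ (1 / 2 : ℝ) ^ 1 :=
          pow_le_pow_of_le_one (by norm_num) (by norm_num) (by omega)
      _ = 1 / 2 := by norm_num
  have hr2 := abs_le.mp hhalf
  have hrpos : 0 < r := by linarith [hr2.1]
  refine ⟨(r : ℂ) * uu τ, ⟨⟨hrS, ?_⟩, ray_Reg hI (by linarith [hr2.1]) (by linarith [hr2.2])⟩,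
    sl_ray τ r hrpos.ne'⟩
  show _ < |‖(r : ℂ) * uu τ‖ - 1| ∧ |‖(r : ℂ) * uu τ‖ - 1| ≤ _
  rw [norm_mul, norm_uu, mul_one, Complex.norm_real, Real.norm_of_nonneg hrpos.le]
  exact ⟨hm1, hm2⟩

end Pool.Agent.helper11.Disk
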