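import Pool.Agent.helper11.Disk.Homs

/-!
# Rigidity: the translation parts vanish
-/

set_option autoImplicit false
set_option linter.unusedSectionVars false
set_option linter.style.haveILetI false
set_option linter.unusedVariables false

open Finset

noncomputable section

namespace Pool.Agent.helper11.Disk

theorem fin4_case {e s t : Fin 4 → ℤ} (he : ∀ i, e i = 0 ∨ e i = 1) (hs : ∀ i, s i = 1 ∨ s i = -1)
    (ht : ∀ i, t i = 1 ∨ t i = -1) (e0 : e 0 = 0) (s0 : s 0 = 1) (t0 : t 0 = 1) {F H X : ℤ}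
    (E1 : ∑ i, s i * ((1 - e i) * F + e i * H) = 8)
    (E2 : ∑ i, s i * t i * ((1 - e i) * H + e i * F) = 8)
    (E3 : (∑ i, t i) * X = 8) (hF : (2 : ℤ) ∣ 2 + F) (hH : (2 : ℤ) ∣ 2 + H)
    (h4 : (4 : ℤ) ∣ 2 + F + X + H) (hex : ∃ i, e i = 1) (hext : ∃ i, t i = -1) : False := by
  have hex' : e 1 = 1 ∨ e 2 = 1 ∨ e 3 = 1 := by
    obtain ⟨i, hi⟩ := hex
    fin_cases i <;> simp_all
  have hext' : t 1 = -1 ∨ t 2 = -1 ∨ t 3 = -1 := by
    obtain ⟨i, hi⟩ := hext
    fin_cases i <;> simp_all
  simp only [Fin.sum_univ_four, e0, s0, t0] at E1 E2 E3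
  clear hex hext e0 s0 t0
  have he1 := he 1
  have he2 := he 2
  have he3 := he 3
  have hs1 := hs 1
  have hs2 := hs 2
  have hs3 := hs 3
  have ht1 := ht 1
  have ht2 := ht 2
  have ht3 := ht 3
  clear he hs ht
  generalize e 1 = e1 at *
  generalize e 2 = e2 at *
  generalize e 3 = e3 at *
  generalize s 1 = s1 at *
  generalize s 2 = s2 at *
  generalize s 3 = s3 at *
  generalize t 1 = t1 at *
  generalize t 2 = t2 at *
  generalize t 3 = t3 at *
  rcases ht1 with rfl | rfl <;> rcases ht2 with rfl | rfl <;> rcases ht3 with rfl | rfl <;>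
  rcases he1 with rfl | rfl <;> rcases he2 with rfl | rfl <;> rcases he3 with rfl | rfl <;>
  rcases hs1 with rfl | rfl <;> rcases hs2 with rfl | rfl <;> rcases hs3 with rfl | rfl <;>
  omega

theorem fin4_inv {s t : Fin 4 → ℤ} (hs : ∀ i, s i = 1 ∨ s i = -1) (ht : ∀ i, t i = 1 ∨ t i = -1)
    (s0 : s 0 = 1) (t0 : t 0 = 1) {F H X : ℤ}
    (E1 : (∑ i, s i) * F = 8) (E2 : (∑ i, s i * t i) * H = 8) (E3 : (∑ i, t i) * X = 8)
    (h4 : (4 : ℤ) ∣ 2 + F + X + H) (h1 : ∃ i, s i = -1) (h2 : ∃ i, t i = -1)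
    (h3 : ∃ i, s i * t i = -1) : False := by
  have h1' : s 1 = -1 ∨ s 2 = -1 ∨ s 3 = -1 := by
    obtain ⟨i, hi⟩ := h1
    fin_cases i <;> simp_all
  have h2' : t 1 = -1 ∨ t 2 = -1 ∨ t 3 = -1 := by
    obtain ⟨i, hi⟩ := h2
    fin_cases i <;> simp_all
  have h3' : s 1 * t 1 = -1 ∨ s 2 * t 2 = -1 ∨ s 3 * t 3 = -1 := by
    obtain ⟨i, hi⟩ := h3
    fin_cases i <;> simp_all
  simp only [Fin.sum_univ_four, s0, t0] at E1 E2 E3
  clear h1 h2 h3 s0 t0
  have hs1 := hs 1
  have hs2 := hs 2
  have hs3 := hs 3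
  have ht1 := ht 1
  have ht2 := ht 2
  have ht3 := ht 3
  clear hs ht
  generalize s 1 = s1 at *
  generalize s 2 = s2 at *
  generalize s 3 = s3 at *
  generalize t 1 = t1 at *
  generalize t 2 = t2 at *
  generalize t 3 = t3 at *
  rcases ht1 with rfl | rfl <;> rcases ht2 with rfl | rfl <;> rcases ht3 with rfl | rfl <;>
  rcases hs1 with rfl | rfl <;> rcases hs2 with rfl | rfl <;> rcases hs3 with rfl | rfl <;>
  omega

/-- the sign -/
def sg (a : ZMod 2) : ℤ := if a = 0 then 1 else -1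

def dl (a : ZMod 2) : ℤ := if a = 0 then 1 else 0

theorem sg_add : ∀ a b : ZMod 2, sg (a + b) = sg a * sg b := by decide

theorem sg_or : ∀ a : ZMod 2, sg a = 1 ∨ sg a = -1 := by decide

theorem sg_neg : ∀ a : ZMod 2, a ≠ 0 → sg a = -1 := by decide

theorem sg_dl : ∀ a : ZMod 2, 1 + sg a = 2 * dl a := by decide

theorem sg_zero : sg 0 = 1 := rfl

theorem two_cancel : ∀ a b c : ZMod 2, a + b + (c + b) = a + c := by decide

section rigid

variable {B : Type*} [AddCommGroup B] {G : Type*} [Group G] [DistribMulAction G B] [Finite G]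
  [Module.Free ℤ B] [Module.Finite ℤ B]

/-- the data -/
structure Dat (n : ℕ) (A : Fin n → G) (b : Fin n → B) (w : B →₀ ℤ) (i₀ : Fin n) : Prop where
  two : 2 ≤ n
  hE : ∑ i, Finsupp.mapDomain (fun x => A i • x + b i) w = Finsupp.single 0 ((Nat.card G : ℕ) : ℤ)
  hi : (i₀ : ℕ) = 0
  hA : A i₀ = 1
  hb : b i₀ = 0
  gen : ∀ (p : ℕ), p.Prime → ∀ χ : B →+ ZMod p, (∀ (C : G) (x : B), χ (C • x) = χ x) →
    (∀ i, χ (b i) = 0) → χ = 0

variable {n : ℕ} {A : Fin n → G} {b : Fin n → B} {w : B →₀ ℤ} {i₀ : Fin n}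

theorem Dat.mul_one (h : Dat n A b w i₀) : (n : ℤ) * LL w (fun _ => (1 : ℤ)) = Nat.card G :=
  LL_one_E h.hE

theorem Dat.dvd (h : Dat n A b w i₀) : n ∣ Nat.card G := by
  have h1 : (n : ℤ) ∣ (Nat.card G : ℤ) := ⟨_, h.mul_one.symm⟩
  exact_mod_cast h1

/-- case 1: `n = |G|` is a prime power. -/
theorem rigid_pp (h : Dat n A b w i₀) {p k : ℕ} (hp : p.Prime) (hn : n = p ^ k)
    (hG : Nat.card G = p ^ k) : Subsingleton B := by
  classical
  by_contra hcon
  rw [not_subsingleton_iff_nontrivial] at hcon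
  haveI := Fact.mk hp
  obtain ⟨χ, hχ0, hχ⟩ := exists_inv (B := B) (G := G) (p := p) (IsPGroup.of_card hG)
  apply hχ0
  apply h.gen p hp χ hχ
  set φ : B → GR p := fun x => AddMonoidAlgebra.single (χ x) (1 : ℤ) with hφ
  have h1 := LL_E h.hE φ
  set T : GR p := ∑ i, AddMonoidAlgebra.single (χ (b i)) (1 : ℤ) with hT
  have h2 : ∀ i, LL w (fun x => φ (A i • x + b i)) =
      (AddMonoidAlgebra.single (χ (b i)) (1 : ℤ) : GR p) * LL w φ := by
    intro i
    rw [← LL_mul]
    congr 1
    funext x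
    simp only [hφ]
    rw [map_add, hχ, AddMonoidAlgebra.single_mul_single, _root_.mul_one, add_comm]
  rw [Finset.sum_congr rfl fun i _ => h2 i, ← Finset.sum_mul] at h1
  have h3 : φ 0 = 1 := by
    simp only [hφ, map_zero]
    rfl
  rw [h3, _root_.mul_one, hG] at h1
  push_cast at h1
  have hone : LL w (fun _ => (1 : ℤ)) = 1 := by
    have h4 := h.mul_one
    rw [hG, ← hn] at h4
    have h5 : (n : ℤ) ≠ 0 := by have := h.two; omega
    exact mul_left_cancel₀ h5 (by rw [h4]; ring)
  obtain ⟨z, hz⟩ := frob hp w (fun x => χ x)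
  rw [hone] at hz
  have hz' : (LL w φ) ^ p = 1 + p * z := by
    rw [← Int.cast_one]
    exact hz
  obtain ⟨z', hz''⟩ := unit_lemma hp h1 hz'
  -- the coefficient at zero
  have h5 : T.coeff 0 = ((univ.filter fun i => χ (b i) = 0).card : ℤ) := by
    rw [hT, Finset.card_filter]
    push_cast
    rw [AddMonoidAlgebra.coeff_sum, Finsupp.finsetSum_apply]
    refine Finset.sum_congr rfl fun i _ => ?_
    rw [AddMonoidAlgebra.coeff_single, Finsupp.single_apply]
  have h6 : (((p : GR p) ^ k * z') : GR p).coeff 0 = (p : ℤ) ^ k * z'.coeff 0 := by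
    have h7 : (p : GR p) ^ k = AddMonoidAlgebra.single 0 ((p : ℤ) ^ k) := by
      have h8 : ((p ^ k : ℕ) : GR p) = AddMonoidAlgebra.single 0 (((p ^ k : ℕ) : ℤ)) := by
        rw [AddMonoidAlgebra.natCast_def]
      push_cast at h8
      exact h8
    rw [h7, AddMonoidAlgebra.coeff_single_zero_mul]
  rw [hT, hz'', h6] at h5
  have h7 : ((univ.filter fun i => χ (b i) = 0).card) = n := by
    have hle : ((univ.filter fun i => χ (b i) = 0).card) ≤ n := by
      have := Finset.card_filter_le (univ : Finset (Fin n)) (fun i => χ (b i) = 0)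
      simpa using this
    have hpos : 0 < ((univ.filter fun i => χ (b i) = 0).card) := by
      apply Finset.card_pos.mpr
      exact ⟨i₀, by simp [h.hb]⟩
    have hdvd : n ∣ ((univ.filter fun i => χ (b i) = 0).card) := by
      have : (n : ℤ) ∣ ((univ.filter fun i => χ (b i) = 0).card : ℤ) := by
        rw [← h5, hn]
        push_cast
        exact Dvd.intro _ rfl
      exact_mod_cast this
    exact le_antisymm hle (Nat.le_of_dvd hpos hdvd)
  intro i
  have h8 : (univ.filter fun i => χ (b i) = 0) = (univ : Finset (Fin n)) :=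
    Finset.eq_univ_of_card _ (by rw [h7]; simp)
  have h9 : i ∈ (univ.filter fun i => χ (b i) = 0) := by rw [h8]; exact Finset.mem_univ i
  exact (Finset.mem_filter.mp h9).2

theorem sg_E (h : Dat n A b w i₀) {χ : B →+ ZMod 2} (hχ : ∀ (C : G) (x : B), χ (C • x) = χ x) :
    (∑ i, sg (χ (b i))) * LL w (fun x => sg (χ x)) = Nat.card G := by
  have h1 := LL_E h.hE (fun x => sg (χ x))
  have h2 : ∀ i, LL w (fun x => sg (χ (A i • x + b i))) = sg (χ (b i)) * LL w (fun x => sg (χ x)) := by
    intro i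
    rw [← LL_mul]
    congr 1
    funext x
    rw [map_add, hχ, sg_add, mul_comm]
  rw [Finset.sum_congr rfl fun i _ => h2 i, ← Finset.sum_mul] at h1
  rw [h1, map_zero, sg_zero, _root_.mul_one]

/-- case 2: `n = 2`. -/
theorem rigid_two (h : Dat n A b w i₀) (hn : n = 2) {k : ℕ} (hG : Nat.card G = 2 ^ k) : Subsingleton B := by
  by_contra hcon
  rw [not_subsingleton_iff_nontrivial] at hcon
  haveI : Fact (Nat.Prime 2) := ⟨Nat.prime_two⟩
  obtain ⟨χ, hχ0, hχ⟩ := exists_inv (B := B) (G := G) (p := 2) (IsPGroup.of_card hG)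
  apply hχ0
  apply h.gen 2 Nat.prime_two χ hχ
  subst hn
  have h1 := sg_E h hχ
  have hi0 : i₀ = 0 := Fin.ext h.hi
  have hb0 : b 0 = 0 := by rw [← hi0]; exact h.hb
  intro i
  by_contra hne
  have hi1 : i = 1 := by
    fin_cases i
    · exact absurd (by show χ (b 0) = 0; rw [hb0, map_zero]) hne
    · rfl
  rw [hi1] at hne
  rw [Fin.sum_univ_two, hb0, map_zero, sg_zero, sg_neg _ hne] at h1
  have h2 : (Nat.card G : ℤ) ≠ 0 := by exact_mod_cast Nat.card_pos.ne'
  apply h2
  rw [← h1]
  ring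

/-- case 3: `n = 4`, `|G| = 8`. -/
theorem rigid_four (h : Dat n A b w i₀) (hn : n = 4) (hG : Nat.card G = 8)
    (hgenA : Subgroup.closure (Set.range A) = ⊤)
    (hrk : Nontrivial B → ∀ χ : B →+ ZMod 2, ∃ g : B →+ ZMod 2, g ≠ 0 ∧ g ≠ χ) : Subsingleton B := by
  classical
  by_contra hcon
  rw [not_subsingleton_iff_nontrivial] at hcon
  haveI : Fact (Nat.Prime 2) := ⟨Nat.prime_two⟩
  have hG' : Nat.card G = 2 ^ 3 := by rw [hG]; norm_num
  have hpg : IsPGroup 2 G := IsPGroup.of_card hG'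
  obtain ⟨χ, hχ0, hχ⟩ := exists_inv (B := B) (G := G) (p := 2) hpg
  obtain ⟨f, hf0, hfχ, hf⟩ := exists_second hpg hχ (hrk hcon χ)
  subst hn
  have hi0 : i₀ = 0 := Fin.ext h.hi
  have hb0 : b 0 = 0 := by rw [← hi0]; exact h.hb
  have hA0 : A 0 = 1 := by rw [← hi0]; exact h.hA
  have hone : LL w (fun _ => (1 : ℤ)) = 2 := by
    have h4 := h.mul_one
    rw [hG] at h4
    push_cast at h4
    linarith
  -- the numbers
  set F : ℤ := LL w (fun x => sg (f x)) with hF
  set H : ℤ := LL w (fun x => sg (f x + χ x)) with hH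
  set X : ℤ := LL w (fun x => sg (χ x)) with hX
  have hcard8 : ((Nat.card G : ℕ) : ℤ) = 8 := by rw [hG]; norm_num
  have E3 : (∑ i, sg (χ (b i))) * X = 8 := by
    rw [← hcard8]; exact sg_E h hχ
  have hparF : (2 : ℤ) ∣ 2 + F := by
    refine ⟨LL w (fun x => dl (f x)), ?_⟩
    have h0 : 2 + F = LL w (fun x => 1 + sg (f x)) := by rw [LL_add, hone]
    rw [h0, ← LL_mul]
    congr 1
    funext x
    exact sg_dl _
  have hparH : (2 : ℤ) ∣ 2 + H := by
    refine ⟨LL w (fun x => dl (f x + χ x)), ?_⟩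
    have h0 : 2 + H = LL w (fun x => 1 + sg (f x + χ x)) := by rw [LL_add, hone]
    rw [h0, ← LL_mul]
    congr 1
    funext x
    exact sg_dl _
  have hpar4 : (4 : ℤ) ∣ 2 + F + X + H := by
    refine ⟨LL w (fun x => dl (f x) * dl (χ x)), ?_⟩
    have h0 : 2 + F + X + H = LL w (fun x => 1 + sg (f x) + sg (χ x) + sg (f x + χ x)) := by
      rw [LL_add, LL_add, LL_add, hone]
    rw [h0, ← LL_mul]
    congr 1
    funext x
    have h1 := sg_dl (f x)
    have h2 := sg_dl (χ x)
    rw [sg_add]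
    linear_combination (1 + sg (χ x)) * h1 + 2 * dl (f x) * h2
  have hext : ∃ i, sg (χ (b i)) = -1 := by
    by_contra hno
    push Not at hno
    apply hχ0
    apply h.gen 2 Nat.prime_two χ hχ
    intro i
    by_contra hne
    exact hno i (sg_neg _ hne)
  by_cases hinv : ∀ (C : G) (x : B), f (C • x) = f x
  · -- three invariant characters
    have hinv' : ∀ (C : G) (x : B), (f + χ) (C • x) = (f + χ) x := by
      intro C x
      rw [AddMonoidHom.add_apply, AddMonoidHom.add_apply, hinv, hχ]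
    have E1 : (∑ i, sg (f (b i))) * F = 8 := by
      rw [← hcard8]; exact sg_E h hinv
    have E2 : (∑ i, sg (f (b i)) * sg (χ (b i))) * H = 8 := by
      have h1 := sg_E h hinv'
      rw [hcard8] at h1
      rw [← h1]
      congr 1
      refine Finset.sum_congr rfl fun i _ => ?_
      rw [← sg_add, AddMonoidHom.add_apply]
    have h1 : ∃ i, sg (f (b i)) = -1 := by
      by_contra hno
      push Not at hno
      apply hf0
      apply h.gen 2 Nat.prime_two f hinv
      intro i
      by_contra hne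
      exact hno i (sg_neg _ hne)
    have h3 : ∃ i, sg (f (b i)) * sg (χ (b i)) = -1 := by
      by_contra hno
      push Not at hno
      have h4 : f + χ = 0 := by
        apply h.gen 2 Nat.prime_two (f + χ) hinv'
        intro i
        by_contra hne
        apply hno i
        rw [← sg_add]
        exact sg_neg _ hne
      apply hfχ
      ext x
      have h5 := DFunLike.congr_fun h4 x
      rw [AddMonoidHom.add_apply, AddMonoidHom.zero_apply] at h5
      rw [add_eq_zero_iff_eq_neg, ZMod.neg_eq_self_mod_two] at h5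
      exact h5
    exact fin4_inv (s := fun i => sg (f (b i))) (t := fun i => sg (χ (b i))) (fun i => sg_or _)
      (fun i => sg_or _) (by show sg (f (b 0)) = 1; rw [hb0, map_zero, sg_zero])
      (by show sg (χ (b 0)) = 1; rw [hb0, map_zero, sg_zero]) E1 E2 E3 hpar4 h1 hext h3
  · -- the stabiliser of `f` is a proper subgroup
    let e : Fin 4 → ℤ := fun i => if ∀ x, f (A i • x) = f x then 0 else 1
    have he : ∀ i, (e i = 0 ∧ ∀ x, f (A i • x) = f x) ∨ (e i = 1 ∧ ∀ x, f (A i • x) = f x + χ x) := by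
      intro i
      by_cases h1 : ∀ x, f (A i • x) = f x
      · left; exact ⟨if_pos h1, h1⟩
      · right
        refine ⟨if_neg h1, ?_⟩
        rcases hf (A i) with h2 | h2
        · exact absurd h2 h1
        · exact h2
    have E1 : ∑ i, sg (f (b i)) * ((1 - e i) * F + e i * H) = 8 := by
      have h1 := LL_E h.hE (fun x => sg (f x))
      rw [map_zero, sg_zero, _root_.mul_one] at h1
      have h2 : ((Nat.card G : ℕ) : ℤ) = 8 := hcard8
      rw [← h2, ← h1]
      refine Finset.sum_congr rfl fun i _ => ?_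
      have h3 : (fun x => sg (f (A i • x + b i))) = fun x => sg (f (b i)) * sg (f (A i • x)) := by
        funext x
        rw [map_add, sg_add, mul_comm]
      rw [h3, LL_mul]
      congr 1
      rcases he i with ⟨h4, h5⟩ | ⟨h4, h5⟩
      · rw [h4]
        simp only [h5]
        rw [hF]; ring
      · rw [h4]
        simp only [h5]
        rw [hH]; ring
    have E2 : ∑ i, sg (f (b i)) * sg (χ (b i)) * ((1 - e i) * H + e i * F) = 8 := by
      have h1 := LL_E h.hE (fun x => sg (f x + χ x))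
      rw [map_zero, map_zero, add_zero, sg_zero, _root_.mul_one] at h1
      have h2 : ((Nat.card G : ℕ) : ℤ) = 8 := hcard8
      rw [← h2, ← h1]
      refine Finset.sum_congr rfl fun i _ => ?_
      have h3 : (fun x => sg (f (A i • x + b i) + χ (A i • x + b i))) =
          fun x => (sg (f (b i)) * sg (χ (b i))) * sg (f (A i • x) + χ x) := by
        funext x
        rw [map_add, map_add, hχ, ← sg_add, ← sg_add]
        congr 1
        abel
      rw [h3, LL_mul]
      congr 1
      rcases he i with ⟨h4, h5⟩ | ⟨h4, h5⟩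
      · rw [h4]
        simp only [h5]
        rw [hH]; ring
      · rw [h4]
        have h6 : (fun x => sg (f (A i • x) + χ x)) = fun x => sg (f x) := by
          funext x
          rw [h5]
          congr 1
          have := two_cancel (f x) (χ x) 0
          rw [zero_add, add_zero] at this
          exact this
        rw [h6, hF]; ring
    have hex : ∃ i, e i = 1 := by
      by_contra hno
      push Not at hno
      apply hinv
      let S : Subgroup G :=
        { carrier := {C | ∀ x, f (C • x) = f x}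
          one_mem' := by intro x; rw [one_smul]
          mul_mem' := by
            intro C C' hC hC' x
            rw [mul_smul, hC, hC']
          inv_mem' := by
            intro C hC x
            rw [← hC (C⁻¹ • x), smul_inv_smul] }
      have hS : (⊤ : Subgroup G) ≤ S := by
        rw [← hgenA, Subgroup.closure_le]
        rintro _ ⟨i, rfl⟩
        rcases he i with ⟨h4, h5⟩ | ⟨h4, h5⟩
        · exact h5
        · exact absurd h4 (hno i)
      intro C x
      exact hS (Subgroup.mem_top C) x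
    have he0 : e 0 = 0 := if_pos (by intro x; rw [hA0, one_smul])
    exact fin4_case (e := e) (s := fun i => sg (f (b i))) (t := fun i => sg (χ (b i)))
      (fun i => (he i).imp And.left And.left) (fun i => sg_or _) (fun i => sg_or _) he0
      (by show sg (f (b 0)) = 1; rw [hb0, map_zero, sg_zero])
      (by show sg (χ (b 0)) = 1; rw [hb0, map_zero, sg_zero]) E1 E2 E3 hparF hparH hpar4 hex hext

/-- all cases with `|G|` dividing `8`. -/
theorem rigid_eight (h : Dat n A b w i₀) (hG : Nat.card G ∣ 8)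
    (hgenA : Subgroup.closure (Set.range A) = ⊤)
    (hrk : Nat.card G = 8 → Nontrivial B → ∀ χ : B →+ ZMod 2, ∃ g : B →+ ZMod 2, g ≠ 0 ∧ g ≠ χ) :
    Subsingleton B := by
  obtain ⟨k, hk, hk2⟩ := (Nat.dvd_prime_pow Nat.prime_two).mp (by rw [show (2 : ℕ) ^ 3 = 8 by norm_num]; exact hG : Nat.card G ∣ 2 ^ 3)
  have hdvd := h.dvd
  have h2 := h.two
  by_cases hnk : n = 2 ^ k
  · exact rigid_pp h Nat.prime_two hnk hk2
  by_cases hn2 : n = 2
  · exact rigid_two h hn2 hk2
  obtain ⟨m, hm, hm2⟩ := (Nat.dvd_prime_pow Nat.prime_two).mp (hk2 ▸ hdvd)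
  have hm3 : m ≤ 3 := hm.trans hk
  have hk3 : k = 3 ∧ m = 2 := by
    interval_cases k <;> interval_cases m <;> simp_all
  obtain ⟨rfl, rfl⟩ := hk3
  have hG8 : Nat.card G = 8 := by rw [hk2]; norm_num
  exact rigid_four h (by rw [hm2]; norm_num) hG8 hgenA (hrk hG8)

end rigid

end Pool.Agent.helper11.Disk
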