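import Pool.Agent.helper11.Disk.Weight

/-!
# The translation module and its rank
-/

set_option autoImplicit false
set_option linter.unusedSectionVars false
set_option linter.style.haveILetI false
set_option linter.unusedVariables false

open Set Filter Topology MeasureTheory Metric
open scoped ENNReal NNReal
open Pool.Agent.helper15.Hexagon

noncomputable section

namespace Pool.Agent.helper11.Disk

/-- the subgroup generated by the `G`-images of the translation parts -/
def transl (G : Subgroup LIso) {n : ℕ} (h : Fin n → Iso) : AddSubgroup ℂ :=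
  AddSubgroup.closure {x | ∃ A ∈ G, ∃ i, x = A (h i 0)}

theorem transl_stable (G : Subgroup LIso) {n : ℕ} (h : Fin n → Iso) :
    ∀ A ∈ G, ∀ x ∈ transl G h, A x ∈ transl G h := by
  intro A hA x hx
  unfold transl at hx ⊢
  induction hx using AddSubgroup.closure_induction with
  | mem y hy =>
    obtain ⟨C, hC, i, rfl⟩ := hy
    exact AddSubgroup.subset_closure ⟨A * C, G.mul_mem hA hC, i, rfl⟩
  | zero => rw [map_zero]; exact zero_mem _
  | add y z _ _ h1 h2 => rw [map_add]; exact add_mem h1 h2
  | neg y _ h1 => rw [map_neg]; exact neg_mem h1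

theorem mem_transl (G : Subgroup LIso) {n : ℕ} (h : Fin n → Iso) (i : Fin n) : h i 0 ∈ transl G h :=
  AddSubgroup.subset_closure ⟨1, G.one_mem, i, rfl⟩

theorem transl_finite (G : Subgroup LIso) [Finite G] {n : ℕ} (h : Fin n → Iso) :
    Module.Finite ℤ (transl G h) := by
  have hfin : {x : ℂ | ∃ A ∈ G, ∃ i, x = A (h i 0)}.Finite := by
    apply (Set.finite_range fun p : G × Fin n => (p.1 : LIso) (h p.2 0)).subset
    rintro x ⟨A, hA, i, rfl⟩
    exact ⟨(⟨A, hA⟩, i), rfl⟩
  haveI : Finite {x : ℂ | ∃ A ∈ G, ∃ i, x = A (h i 0)} := hfin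
  rw [Module.Finite.iff_addGroup_fg]
  exact AddGroup.closure_finite_fg _

theorem transl_free (G : Subgroup LIso) [Finite G] {n : ℕ} (h : Fin n → Iso) :
    Module.Free ℤ (transl G h) := by
  haveI := transl_finite G h
  exact Module.free_of_finite_type_torsion_free'

theorem countable_of_finite_free {B : Type*} [AddCommGroup B] [Module.Finite ℤ B] [Module.Free ℤ B] :
    Countable B := by
  have b := Module.Free.chooseBasis ℤ B
  exact b.repr.toEquiv.injective.countable

/-- linear isometries preserving a line `ℤ v` up to sign: at most four. -/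
theorem card_le_four (G : Subgroup LIso) [Finite G] {v : ℂ} (hv : v ≠ 0) (h : ∀ A ∈ G, A v = v ∨ A v = -v) :
    Nat.card G ≤ 4 := by
  classical
  let φ : G → Prop × Prop := fun A => ((A : LIso) v = v, ∃ a : Circle, (A : LIso) = rotation a)
  have hinj : Function.Injective φ := by
    intro A A' hAA
    rw [Prod.mk.injEq] at hAA
    obtain ⟨h1, h2⟩ := hAA
    have hv' : (A : LIso) v = (A' : LIso) v := by
      rcases h A A.2 with h3 | h3
      · rw [h3, h1.mp h3]
      · rcases h A' A'.2 with h4 | h4
        · exfalso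
          have h5 : v = -v := (h1.mpr h4).symm.trans h3
          exact hv (self_eq_neg.mp h5)
        · rw [h3, h4]
    apply Subtype.ext
    by_cases h5 : ∃ a : Circle, (A : LIso) = rotation a
    · obtain ⟨a, ha⟩ := h5
      obtain ⟨a', ha'⟩ := h2.mp ⟨a, ha⟩
      rw [ha, ha', rotation_apply, rotation_apply] at hv'
      rw [ha, ha', Subtype.ext (mul_right_cancel₀ hv hv')]
    · have h6 : ¬ ∃ a : Circle, (A' : LIso) = rotation a := fun h6 => h5 (h2.mpr h6)
      rcases linear_isometry_complex (A : LIso) with ⟨a, ha | ha⟩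
      · exact absurd ⟨a, ha⟩ h5
      rcases linear_isometry_complex (A' : LIso) with ⟨a', ha' | ha'⟩
      · exact absurd ⟨a', ha'⟩ h6
      rw [ha, ha'] at hv'
      have h7 : (a : ℂ) * (starRingEnd ℂ) v = (a' : ℂ) * (starRingEnd ℂ) v := hv'
      have h8 : (starRingEnd ℂ) v ≠ 0 := (map_ne_zero _).mpr hv
      rw [ha, ha', Subtype.ext (mul_right_cancel₀ h8 h7)]
  have h1 := Nat.card_le_card_of_injective φ hinj
  have h2 : Nat.card (Prop × Prop) = 4 := by
    rw [Nat.card_prod, Nat.card_eq_fintype_card, Fintype.card_prop]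
  rw [h2] at h1
  exact h1

/-- two characters if the group has order eight. -/
theorem two_chars (G : Subgroup LIso) [Finite G] (B : AddSubgroup ℂ) (hGB : ∀ A ∈ G, ∀ x ∈ B, A x ∈ B)
    [Module.Free ℤ B] [Nontrivial B] (h8 : Nat.card G = 8) (χ : B →+ ZMod 2) :
    ∃ g : B →+ ZMod 2, g ≠ 0 ∧ g ≠ χ := by
  classical
  haveI : Fact (Nat.Prime 2) := ⟨Nat.prime_two⟩
  have b := Module.Free.chooseBasis ℤ B
  obtain ⟨i⟩ := b.index_nonempty
  by_cases hsub : ∃ j, j ≠ i
  · obtain ⟨j, hj⟩ := hsub
    obtain ⟨f, hf1, hf2⟩ := exists_hom_basis (p := 2) b i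
    obtain ⟨f', hf1', hf2'⟩ := exists_hom_basis (p := 2) b j
    have h0 : f ≠ 0 := by
      intro h; rw [h] at hf1; exact zero_ne_one hf1
    have h0' : f' ≠ 0 := by
      intro h; rw [h] at hf1'; exact zero_ne_one hf1'
    by_cases hχ : f = χ
    · refine ⟨f', h0', fun h => ?_⟩
      rw [← hχ] at h
      rw [h, hf2 j hj] at hf1'
      exact zero_ne_one hf1'
    · exact ⟨f, h0, hχ⟩
  · exfalso
    have hsub' : ∀ j, j = i := fun j => by_contra fun hj => hsub ⟨j, hj⟩
    have hgen : ∀ x : B, ∃ m : ℤ, x = m • b i := by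
      intro x
      refine ⟨b.repr x i, ?_⟩
      apply b.repr.injective
      ext j
      rw [hsub' j, map_smul, Finsupp.smul_apply, Module.Basis.repr_self, Finsupp.single_eq_same,
        smul_eq_mul, mul_one]
    have hv : ((b i : B) : ℂ) ≠ 0 := by
      intro h
      exact b.ne_zero i (Subtype.ext h)
    have h4 := card_le_four G hv (by
      intro A hA
      obtain ⟨m, hm⟩ := hgen ⟨A (b i : B), hGB A hA _ (b i).2⟩
      have hm' : A ((b i : B) : ℂ) = (m : ℂ) * ((b i : B) : ℂ) := by
        have h5 : A ((b i : B) : ℂ) = ((m • b i : B) : ℂ) := congrArg Subtype.val hm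
        rw [h5]
        simp
      have hn : ‖(m : ℂ)‖ = 1 := by
        have h5 : ‖A ((b i : B) : ℂ)‖ = ‖((b i : B) : ℂ)‖ := A.norm_map _
        rw [hm', norm_mul] at h5
        have h6 : ‖((b i : B) : ℂ)‖ ≠ 0 := norm_ne_zero_iff.mpr hv
        exact (mul_eq_right₀ h6).mp h5
      rw [Complex.norm_intCast] at hn
      rcases abs_eq_abs.mp (hn.trans abs_one.symm) with h7 | h7
      · left
        rw [hm']
        have : (m : ℂ) = 1 := by exact_mod_cast h7
        rw [this, one_mul]
      · right
        rw [hm']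
        have : (m : ℂ) = -1 := by exact_mod_cast h7
        rw [this, neg_one_mul])
    omega

end Pool.Agent.helper11.Disk
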