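import Pool.Agent.helper11.Disk.Jump
import Pool.Agent.helper11.Disk.Rigid

/-!
# From the jump function to a weight on the translation module
-/

set_option autoImplicit false
set_option linter.unusedSectionVars false
set_option linter.style.haveILetI false

open Set Filter Topology MeasureTheory Metric
open scoped ENNReal NNReal
open Pool.Agent.helper15.Hexagon

noncomputable section

namespace Pool.Agent.helper11.Disk

/-- the linear isometries of the plane -/
abbrev LIso := ℂ ≃ₗᵢ[ℝ] ℂ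

/-- the linear part -/
def lin (γ : Iso) : LIso := γ.linearIsometryEquiv

theorem lin_apply (γ : Iso) (x : ℂ) : lin γ x = γ x - γ 0 := by
  have h := γ.map_vsub x 0
  rw [vsub_eq_sub, vsub_eq_sub, sub_zero] at h
  exact h

theorem iso_apply (γ : Iso) (x : ℂ) : γ x = lin γ x + γ 0 := by
  rw [lin_apply]; ring

theorem lin_mul (γ δ : Iso) : lin (γ * δ) = lin γ * lin δ := by
  ext x
  rw [lin_apply]
  show γ (δ x) - γ (δ 0) = lin γ (lin δ x)
  rw [lin_apply δ x, map_sub, iso_apply γ (δ x), iso_apply γ (δ 0)]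
  ring

theorem lin_one : lin (1 : Iso) = 1 := by
  ext x
  rw [lin_apply]
  show x - 0 = x
  ring

theorem lin_inv (γ : Iso) : lin γ⁻¹ = (lin γ)⁻¹ := by
  rw [eq_inv_iff_mul_eq_one, ← lin_mul, inv_mul_cancel, lin_one]

theorem inv_zero' (γ : Iso) : γ⁻¹ 0 = -((lin γ)⁻¹ (γ 0)) := by
  have h1 : γ (γ⁻¹ 0) = 0 := by
    rw [AffineIsometryEquiv.coe_inv, AffineIsometryEquiv.apply_symm_apply]
  rw [iso_apply γ (γ⁻¹ 0)] at h1
  have h2 : lin γ (γ⁻¹ 0) = -(γ 0) := eq_neg_of_add_eq_zero_left h1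
  have h3 : (lin γ)⁻¹ (lin γ (γ⁻¹ 0)) = γ⁻¹ 0 := (lin γ).symm_apply_apply _
  rw [← h3, h2, map_neg]

theorem iso_ext {γ δ : Iso} (h1 : lin γ = lin δ) (h2 : γ 0 = δ 0) : γ = δ := by
  ext x
  rw [iso_apply γ, iso_apply δ, h1, h2]

/-- the group of the isometries with linear part in `G` and translation part in `B`. -/
def affG (G : Subgroup LIso) (B : AddSubgroup ℂ) (hGB : ∀ A ∈ G, ∀ x ∈ B, A x ∈ B) : Subgroup Iso where
  carrier := {γ | lin γ ∈ G ∧ γ 0 ∈ B}
  one_mem' := ⟨by rw [lin_one]; exact G.one_mem, B.zero_mem⟩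
  mul_mem' := by
    rintro γ δ ⟨h1, h2⟩ ⟨h3, h4⟩
    refine ⟨by rw [lin_mul]; exact G.mul_mem h1 h3, ?_⟩
    show γ (δ 0) ∈ B
    rw [iso_apply]
    exact B.add_mem (hGB _ h1 _ h4) h2
  inv_mem' := by
    rintro γ ⟨h1, h2⟩
    refine ⟨by rw [lin_inv]; exact G.inv_mem h1, ?_⟩
    show γ⁻¹ 0 ∈ B
    rw [inv_zero']
    exact B.neg_mem (hGB _ (G.inv_mem h1) _ h2)

/-- the jump function as an element of the group ring. -/
theorem jump_eq {Γ : Subgroup Iso} {n : ℕ} {g : Fin n → Γ} (hK : {γ : Γ | (γ : Iso) 0 = 0}.Finite)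
    {j : Γ →₀ ℤ} (hj : ∀ γ : Γ, ∑ i, j ((g i)⁻¹ * γ) = ind {x | x = 0} ((γ : Iso) 0)) :
    ∑ i, Finsupp.mapDomain (fun γ => g i * γ) j = ∑ κ ∈ hK.toFinset, Finsupp.single κ (1 : ℤ) := by
  classical
  ext γ
  rw [Finsupp.finsetSum_apply, Finsupp.finsetSum_apply]
  have h1 : ∀ i, Finsupp.mapDomain (fun γ => g i * γ) j γ = j ((g i)⁻¹ * γ) := by
    intro i
    have h2 : γ = g i * ((g i)⁻¹ * γ) := by group
    conv_lhs => rw [h2]
    exact Finsupp.mapDomain_apply (mul_right_injective (g i)) j ((g i)⁻¹ * γ)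
  rw [Finset.sum_congr rfl fun i _ => h1 i, hj]
  have h3 : ∀ κ ∈ hK.toFinset, (Finsupp.single κ (1 : ℤ)) γ = if κ = γ then 1 else 0 := by
    intro κ _
    rw [Finsupp.single_apply]
  rw [Finset.sum_congr rfl h3, Finset.sum_ite_eq']
  unfold ind
  by_cases h : (γ : Iso) 0 = 0
  · rw [if_pos (show (γ : Iso) 0 ∈ {x : ℂ | x = 0} from h), if_pos]
    rw [Set.Finite.mem_toFinset]
    exact h
  · rw [if_neg (show ¬ (γ : Iso) 0 ∈ {x : ℂ | x = 0} from h), if_neg]
    rw [Set.Finite.mem_toFinset]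
    exact h

/-- `n` divides the order of the stabiliser of the centre. -/
theorem dvd_of_jump {Γ : Subgroup Iso} {n : ℕ} {g : Fin n → Γ} (hK : {γ : Γ | (γ : Iso) 0 = 0}.Finite)
    {j : Γ →₀ ℤ} (hj : ∀ γ : Γ, ∑ i, j ((g i)⁻¹ * γ) = ind {x | x = 0} ((γ : Iso) 0)) :
    n ∣ {γ : Γ | (γ : Iso) 0 = 0}.ncard := by
  classical
  have h1 := jump_eq hK hj
  have h2 := congrArg (fun v : Γ →₀ ℤ => v.sum fun _ a => a) h1
  have hadd : ∀ {ι : Type} (s : Finset ι) (v : ι → Γ →₀ ℤ),
      (∑ i ∈ s, v i).sum (fun _ a => a) = ∑ i ∈ s, (v i).sum (fun _ a => a) := by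
    intro ι s v
    rw [← Finsupp.sum_finsetSum_index]
    · intro _; rfl
    · intro _ a b; rfl
  have hadd2 : (∑ κ ∈ hK.toFinset, Finsupp.single κ (1 : ℤ)).sum (fun _ a => a) =
      ∑ κ ∈ hK.toFinset, (Finsupp.single κ (1 : ℤ)).sum (fun _ a => a) := by
    rw [← Finsupp.sum_finsetSum_index]
    · intro _; rfl
    · intro _ a b; rfl
  simp only [hadd, hadd2] at h2
  have h3 : ∀ i, (Finsupp.mapDomain (fun γ => g i * γ) j).sum (fun _ a => a) = j.sum fun _ a => a := by
    intro i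
    rw [Finsupp.sum_mapDomain_index]
    · intro _; rfl
    · intro _ a b; rfl
  have h4 : ∀ κ ∈ hK.toFinset, (Finsupp.single κ (1 : ℤ)).sum (fun _ a => a) = 1 := by
    intro κ _
    rw [Finsupp.sum_single_index]
    rfl
  rw [Finset.sum_congr rfl fun i _ => h3 i, Finset.sum_congr rfl h4] at h2
  simp only [Finset.sum_const, Finset.card_univ, Fintype.card_fin, nsmul_eq_mul, mul_one] at h2
  rw [Set.ncard_eq_toFinset_card _ hK]
  have h5 : (n : ℤ) ∣ (hK.toFinset.card : ℤ) := ⟨_, h2.symm⟩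
  exact_mod_cast h5

/-- the action of `G` on `B` -/
@[instance_reducible] def actB (G : Subgroup LIso) (B : AddSubgroup ℂ) (hGB : ∀ A ∈ G, ∀ x ∈ B, A x ∈ B) :
    DistribMulAction G B where
  smul A x := ⟨(A : LIso) x, hGB _ A.2 _ x.2⟩
  one_smul x := rfl
  mul_smul A A' x := rfl
  smul_zero A := Subtype.ext (map_zero (A : LIso))
  smul_add A x y := Subtype.ext (map_add (A : LIso) (x : ℂ) (y : ℂ))

/-- the weight on `B` -/
theorem exists_weight {n : ℕ} {P : Fin n → Set ℂ} (hP : CongruentDissection (closedBall 0 1) n P)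
    (i₀ : Fin n) (h : Fin n → Iso) (hh : ∀ i, h i '' P i₀ = P i) (G : Subgroup LIso) [Finite G]
    (B : AddSubgroup ℂ) [Countable B] (hGB : ∀ A ∈ G, ∀ x ∈ B, A x ∈ B) (hA : ∀ i, lin (h i) ∈ G)
    (hb : ∀ i, h i 0 ∈ B) :
    letI := actB G B hGB
    ∃ w : B →₀ ℤ, ∑ i, Finsupp.mapDomain (fun x : B => (⟨lin (h i), hA i⟩ : G) • x + ⟨h i 0, hb i⟩) w =
      Finsupp.single 0 ((Nat.card G : ℕ) : ℤ) := by
  classical
  letI := actB G B hGB
  set Γ := affG G B hGB with hΓ
  have hcount : Countable Γ := by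
    have hinj : Function.Injective (fun γ : Γ => ((⟨lin γ, γ.2.1⟩ : G), (⟨(γ : Iso) 0, γ.2.2⟩ : B))) := by
      intro γ δ hγδ
      rw [Prod.mk.injEq, Subtype.mk.injEq, Subtype.mk.injEq] at hγδ
      exact Subtype.ext (iso_ext hγδ.1 hγδ.2)
    exact hinj.countable
  set K : Set Γ := {γ : Γ | (γ : Iso) 0 = 0} with hKdef
  let e : K ≃ G :=
    { toFun := fun γ => ⟨lin (γ : Γ), (γ : Γ).2.1⟩
      invFun := fun A => ⟨⟨(A : LIso).toAffineIsometryEquiv, by
          refine ⟨?_, ?_⟩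
          · show lin (A : LIso).toAffineIsometryEquiv ∈ G
            unfold lin
            rw [LinearIsometryEquiv.toAffineIsometryEquiv_linearIsometryEquiv]
            exact A.2
          · show (A : LIso).toAffineIsometryEquiv 0 ∈ B
            rw [LinearIsometryEquiv.coe_toAffineIsometryEquiv, map_zero]
            exact B.zero_mem⟩, by
          show (A : LIso).toAffineIsometryEquiv 0 = 0
          rw [LinearIsometryEquiv.coe_toAffineIsometryEquiv, map_zero]⟩
      left_inv := by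
        rintro ⟨γ, hγ⟩
        apply Subtype.ext
        apply Subtype.ext
        apply iso_ext
        · show lin (LinearIsometryEquiv.toAffineIsometryEquiv (lin (γ : Iso))) = lin γ
          unfold lin
          rw [LinearIsometryEquiv.toAffineIsometryEquiv_linearIsometryEquiv]
        · show (LinearIsometryEquiv.toAffineIsometryEquiv (lin (γ : Iso))) 0 = (γ : Iso) 0
          rw [LinearIsometryEquiv.coe_toAffineIsometryEquiv, map_zero]
          exact hγ.symm
      right_inv := by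
        intro A
        apply Subtype.ext
        show lin (LinearIsometryEquiv.toAffineIsometryEquiv (A : LIso)) = A
        unfold lin
        rw [LinearIsometryEquiv.toAffineIsometryEquiv_linearIsometryEquiv] }
  haveI hKF : Finite K := Finite.of_equiv G e.symm
  have hKfin : K.Finite := Set.toFinite K
  have hcard : hKfin.toFinset.card = Nat.card G := by
    rw [← Nat.card_congr e, ← Set.ncard_eq_toFinset_card _ hKfin]
    rfl
  let g : Fin n → Γ := fun i => ⟨h i, hA i, hb i⟩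
  obtain ⟨j, hj⟩ := exists_jump hP i₀ Γ hKfin g hh
  have h1 := jump_eq hKfin hj
  set π : Γ → B := fun γ => ⟨(γ : Iso) 0, γ.2.2⟩ with hπ
  refine ⟨Finsupp.mapDomain π j, ?_⟩
  have h2 := congrArg (Finsupp.mapDomain π) h1
  rw [Finsupp.mapDomain_finsetSum, Finsupp.mapDomain_finsetSum] at h2
  have h3 : ∀ i, Finsupp.mapDomain π (Finsupp.mapDomain (fun γ => g i * γ) j) =
      Finsupp.mapDomain (fun x : B => (⟨lin (h i), hA i⟩ : G) • x + ⟨h i 0, hb i⟩) (Finsupp.mapDomain π j) := by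
    intro i
    rw [← Finsupp.mapDomain_comp, ← Finsupp.mapDomain_comp]
    congr 1
    funext γ
    apply Subtype.ext
    show (h i) ((γ : Iso) 0) = lin (h i) ((γ : Iso) 0) + h i 0
    exact iso_apply _ _
  rw [Finset.sum_congr rfl fun i _ => h3 i] at h2
  rw [h2]
  have h4 : ∀ κ ∈ hKfin.toFinset, Finsupp.mapDomain π (Finsupp.single κ (1 : ℤ)) = Finsupp.single 0 1 := by
    intro κ hκ
    rw [Finsupp.mapDomain_single]
    congr 1
    apply Subtype.ext
    rw [Set.Finite.mem_toFinset] at hκ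
    exact hκ
  rw [Finset.sum_congr rfl h4, Finset.sum_const, hcard, Finsupp.smul_single, nsmul_eq_mul, mul_one]

end Pool.Agent.helper11.Disk
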